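import Mathlib

/-!
# Jensen's inequality on discs and half-planes, with truncated logarithms
-/

set_option autoImplicit false

namespace Pool.Agent.TH345.ET

open Complex MeasureTheory Filter Topology Metric

/-- `log max(‖w‖, η)` -/
noncomputable def lm (η : ℝ) (w : ℂ) : ℝ := Real.log (max ‖w‖ η)

lemma continuous_lm {η : ℝ} (hη : 0 < η) : Continuous (lm η) := by
  unfold lm
  exact (continuous_norm.max continuous_const).log fun w => (lt_max_of_lt_right hη).ne'

lemma log_le_lm {η : ℝ} (w : ℂ) (hw : w ≠ 0) : Real.log ‖w‖ ≤ lm η w :=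
  Real.log_le_log (norm_pos_iff.2 hw) (le_max_left _ _)

lemma jensen_disc {g : ℂ → ℂ} {ρ : ℝ} (hρ : 0 < ρ) (hg : AnalyticOnNhd ℂ g (closedBall 0 ρ))
    (h0 : g 0 ≠ 0) {η : ℝ} (hη : 0 < η) :
    Real.log ‖g 0‖ ≤ Real.circleAverage (fun z => lm η (g z)) 0 ρ := by
  have habs : |ρ| = ρ := abs_of_pos hρ
  have hg' : AnalyticOnNhd ℂ g (closedBall 0 |ρ|) := by rwa [habs]
  have J := hg'.circleAverage_log_norm hρ.ne' h0
  have h1 : 0 ≤ ∑ᶠ u, (MeromorphicOn.divisor g (closedBall 0 |ρ|) u : ℝ) *
      Real.log (ρ * ‖(0 : ℂ) - u‖⁻¹) := by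
    refine finsum_nonneg fun u => ?_
    by_cases hu : u ∈ closedBall (0 : ℂ) |ρ|
    · refine mul_nonneg ?_ ?_
      · have := MeromorphicOn.AnalyticOnNhd.divisor_nonneg hg' u
        exact_mod_cast this
      · rw [habs] at hu
        rw [mem_closedBall, dist_zero_right] at hu
        rw [zero_sub, norm_neg]
        by_cases hu0 : u = 0
        · simp [hu0]
        · have hpos : 0 < ‖u‖ := norm_pos_iff.2 hu0
          refine Real.log_nonneg ?_
          rw [← div_eq_mul_inv, le_div_iff₀ hpos, one_mul]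
          exact hu
    · have : MeromorphicOn.divisor g (closedBall 0 |ρ|) u = 0 :=
        Function.locallyFinsuppWithin.apply_eq_zero_of_notMem _ hu
      simp [this]
  have h2 : Real.log ‖g 0‖ ≤ Real.circleAverage (fun z => Real.log ‖g z‖) 0 ρ := by
    rw [J]
    linarith
  refine h2.trans ?_
  -- compare
  have hcod : ∀ᶠ x in codiscreteWithin (closedBall (0 : ℂ) |ρ|), g x ≠ 0 := by
    rcases hg'.eqOn_zero_or_eventually_ne_zero_of_preconnected
      (convex_closedBall (0 : ℂ) |ρ|).isPreconnected with h | h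
    · exact absurd (h (mem_closedBall_self (abs_nonneg _))) h0
    · exact h
  have hcod2 : ∀ᶠ x in codiscreteWithin (sphere (0 : ℂ) |ρ|), g x ≠ 0 :=
    hcod.filter_mono (codiscreteWithin_mono sphere_subset_closedBall)
  set f₂ : ℂ → ℝ := fun z => if g z = 0 then Real.log η else Real.log ‖g z‖ with hf₂
  have heq : (fun z => Real.log ‖g z‖) =ᶠ[codiscreteWithin (sphere (0 : ℂ) |ρ|)] f₂ := by
    filter_upwards [hcod2] with z hz
    rw [hf₂]
    simp only [hz, if_false]
  have hint : CircleIntegrable (fun z => Real.log ‖g z‖) 0 ρ :=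
    MeromorphicOn.circleIntegrable_log_norm
      ((hg'.mono sphere_subset_closedBall).meromorphicOn)
  have hint2 : CircleIntegrable f₂ 0 ρ := hint.congr_codiscreteWithin heq
  rw [Real.circleAverage_congr_codiscreteWithin heq hρ.ne']
  refine Real.circleAverage_mono hint2 ?_ ?_
  · refine ContinuousOn.circleIntegrable hρ.le ?_
    refine (continuous_lm hη).comp_continuousOn ?_
    rw [← habs]
    exact (hg'.mono sphere_subset_closedBall).continuousOn
  · intro z _
    rw [hf₂]
    simp only
    split_ifs with hz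
    · exact Real.log_le_log hη (le_max_right _ _)
    · exact log_le_lm _ hz

end Pool.Agent.TH345.ET
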