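import Pool.Agent.TH345.ET.A

/-!
# Jensen's inequality on a half-plane
-/

set_option autoImplicit false

namespace Pool.Agent.TH345.ET

open Complex MeasureTheory Filter Topology Metric

lemma re_cayley {z : ℂ} (hz : ‖z‖ < 1) : 0 < ((1 + z) / (1 - z)).re := by
  have h1 : (1 - z) ≠ 0 := by
    intro h
    rw [← sub_eq_zero.1 h, norm_one] at hz
    exact lt_irrefl _ hz
  have h2 : 0 < Complex.normSq (1 - z) := Complex.normSq_pos.2 h1
  rw [Complex.div_re, ← add_div]
  refine div_pos ?_ h2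
  have h3 : Complex.normSq z < 1 := by
    rw [Complex.normSq_eq_norm_sq]
    nlinarith [norm_nonneg z]
  rw [Complex.normSq_apply] at h3
  simp only [Complex.add_re, Complex.one_re, Complex.sub_re, Complex.add_im, Complex.one_im,
    Complex.sub_im]
  nlinarith

lemma cayley_circle {θ : ℝ} (h0 : 0 < θ) (h1 : θ < 2 * Real.pi) :
    (1 + Complex.exp (θ * I)) / (1 - Complex.exp (θ * I)) =
      (Real.tan (Real.pi / 2 - (1 / 2) * θ) : ℝ) * I := by
  have hs : 0 < Real.sin (θ / 2) := Real.sin_pos_of_pos_of_lt_pi (by linarith) (by linarith)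
  have e1 : Complex.exp (θ * I) = Complex.exp ((θ / 2 : ℝ) * I) * Complex.exp ((θ / 2 : ℝ) * I) := by
    rw [← Complex.exp_add]
    congr 1
    push_cast
    ring
  have e2 : Complex.exp ((θ / 2 : ℝ) * I) = (Real.cos (θ / 2) : ℂ) + (Real.sin (θ / 2) : ℂ) * I := by
    rw [Complex.exp_mul_I, Complex.ofReal_cos, Complex.ofReal_sin]
  have e3 : Real.tan (Real.pi / 2 - (1 / 2) * θ) = Real.cos (θ / 2) / Real.sin (θ / 2) := by
    rw [Real.tan_eq_sin_div_cos, Real.sin_pi_div_two_sub, Real.cos_pi_div_two_sub]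
    congr 2 <;> ring
  have hI : I * I = -1 := Complex.I_mul_I
  have hcs : (Real.cos (θ / 2) : ℂ) * Real.cos (θ / 2) + (Real.sin (θ / 2) : ℂ) * Real.sin (θ / 2)
      = 1 := by
    have := Real.cos_sq_add_sin_sq (θ / 2)
    rw [sq, sq] at this
    exact_mod_cast this
  have hsC : (Real.sin (θ / 2) : ℂ) ≠ 0 := by exact_mod_cast hs.ne'
  set c : ℂ := (Real.cos (θ / 2) : ℂ) with hc
  set d : ℂ := (Real.sin (θ / 2) : ℂ) with hd
  have hne : 1 - Complex.exp (θ * I) ≠ 0 := by
    rw [e1, e2]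
    have h5 : 1 - (c + d * I) * (c + d * I) = -2 * I * d * (c + d * I) := by
      linear_combination (-1 : ℂ) * hcs + (d * d) * hI
    rw [h5]
    refine mul_ne_zero (mul_ne_zero (mul_ne_zero (by norm_num) Complex.I_ne_zero) hsC) ?_
    rw [← e2]
    exact Complex.exp_ne_zero _
  rw [e3, div_eq_iff hne, e1, e2, Complex.ofReal_div, ← hc, ← hd]
  have h6 : c / d * I * (1 - (c + d * I) * (c + d * I)) =
      (c * I * (1 - (c + d * I) * (c + d * I))) / d := by ring
  rw [h6, eq_div_iff hsC]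
  linear_combination (-(d - c * I)) * hcs + (d ^ 3 + 2 * c ^ 2 * d + c * d ^ 2 * I) * hI

lemma integral_tan (H : ℝ → ℝ) :
    ∫ ψ in Set.Ioo (-(Real.pi / 2)) (Real.pi / 2), H (Real.tan ψ) =
      ∫ x : ℝ, H x * (1 + x ^ 2)⁻¹ := by
  have h1 := integral_image_eq_integral_abs_deriv_smul (s := Set.univ) (f := Real.arctan)
    (f' := fun x => 1 / (1 + x ^ 2)) MeasurableSet.univ
    (fun x _ => (Real.hasDerivAt_arctan x).hasDerivWithinAt)
    (Real.arctan_injective.injOn) (fun ψ => H (Real.tan ψ))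
  rw [Set.image_univ, Real.range_arctan] at h1
  rw [h1, Measure.restrict_univ]
  refine integral_congr_ae (Eventually.of_forall fun x => ?_)
  simp only [smul_eq_mul]
  rw [Real.tan_arctan, abs_of_pos (by positivity), one_div]
  ring

end Pool.Agent.TH345.ET
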