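import Pool.Agent.TH345.ET.B

/-!
# Jensen's inequality on a half-plane
-/

set_option autoImplicit false

namespace Pool.Agent.TH345.ET

open Complex MeasureTheory Filter Topology Metric

lemma lm_abs {η B : ℝ} (hη : 0 < η) {w : ℂ} (hw : ‖w‖ ≤ B) :
    |lm η w| ≤ |Real.log η| + |Real.log (max B η)| := by
  have h1 : Real.log η ≤ lm η w := Real.log_le_log hη (le_max_right _ _)
  have h2 : lm η w ≤ Real.log (max B η) :=
    Real.log_le_log (lt_max_of_lt_right hη) (max_le_max_right _ hw)
  rw [abs_le]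
  constructor
  · have := neg_abs_le (Real.log η)
    linarith [abs_nonneg (Real.log (max B η))]
  · have := le_abs_self (Real.log (max B η))
    linarith [abs_nonneg (Real.log η)]

/-- the radii -/
noncomputable def rd (n : ℕ) : ℝ := 1 - 1 / ((n : ℝ) + 2)

lemma rd_pos (n : ℕ) : 0 < rd n := by
  unfold rd
  have h : (0 : ℝ) < (n : ℝ) + 2 := by positivity
  rw [sub_pos, div_lt_one h]
  have : (0 : ℝ) ≤ n := Nat.cast_nonneg n
  linarith

lemma rd_lt (n : ℕ) : rd n < 1 := by
  unfold rd
  have h : (0 : ℝ) < 1 / ((n : ℝ) + 2) := by positivity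
  linarith

lemma rd_tendsto : Tendsto rd atTop (𝓝 1) := by
  unfold rd
  have h1 : Tendsto (fun n : ℕ => 1 / ((n : ℝ) + 2)) atTop (𝓝 0) := by
    have := (tendsto_const_div_atTop_nhds_zero_nat (1 : ℝ)).comp (tendsto_add_atTop_nat 2)
    refine this.congr fun n => ?_
    simp
  simpa using tendsto_const_nhds.sub h1

lemma re_line (σ y : ℝ) : ((σ : ℂ) + (y : ℂ) * I).re = σ := by simp

theorem jensen_half {f : ℂ → ℂ} {a σ δ t₀ B η : ℝ} (hf : DifferentiableOn ℂ f {s | a < s.re})
    (haσ : a < σ) (hδ : 0 < δ) (hB : ∀ s : ℂ, σ ≤ s.re → ‖f s‖ ≤ B) (hη : 0 < η)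
    (h0 : f (((σ + δ : ℝ) : ℂ) + t₀ * I) ≠ 0) :
    Real.log ‖f (((σ + δ : ℝ) : ℂ) + t₀ * I)‖ ≤
      Real.pi⁻¹ * ∫ x : ℝ, lm η (f ((σ : ℂ) + ((t₀ + δ * x : ℝ) : ℂ) * I)) * (1 + x ^ 2)⁻¹ := by
  set φ : ℂ → ℂ := fun z => ((σ : ℂ) + t₀ * I) + δ * ((1 + z) / (1 - z)) with hφ
  have hopen : IsOpen {s : ℂ | a < s.re} := isOpen_lt continuous_const Complex.continuous_re
  have hφre : ∀ z : ℂ, ‖z‖ < 1 → σ < (φ z).re := by
    intro z hz
    have h1 := re_cayley hz
    have h2 : (φ z).re = σ + δ * ((1 + z) / (1 - z)).re := by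
      rw [hφ]
      simp only [Complex.add_re, Complex.ofReal_re, Complex.mul_re,
        Complex.I_re, Complex.I_im, Complex.ofReal_im]
      ring
    rw [h2]
    nlinarith [mul_pos hδ h1]
  have hne : ∀ z : ℂ, ‖z‖ < 1 → (1 - z) ≠ 0 := by
    intro z hz h
    rw [← sub_eq_zero.1 h, norm_one] at hz
    exact lt_irrefl _ hz
  have hφan : ∀ z : ℂ, ‖z‖ < 1 → AnalyticAt ℂ φ z := by
    intro z hz
    rw [hφ]
    have h1 : AnalyticAt ℂ (fun z : ℂ => (1 + z) / (1 - z)) z :=
      (analyticAt_const.add analyticAt_id).div (analyticAt_const.sub analyticAt_id) (hne z hz)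
    exact analyticAt_const.add (analyticAt_const.mul h1)
  have hφ0 : φ 0 = ((σ + δ : ℝ) : ℂ) + t₀ * I := by
    rw [hφ]
    simp only [add_zero, sub_zero, div_one, mul_one]
    push_cast
    ring
  have hfan : ∀ s : ℂ, a < s.re → AnalyticAt ℂ f s := fun s hs =>
    hf.analyticAt (hopen.mem_nhds hs)
  -- the inequality on discs
  have hJ : ∀ n : ℕ, Real.log ‖f (((σ + δ : ℝ) : ℂ) + t₀ * I)‖ ≤
      Real.circleAverage (fun z => lm η (f (φ z))) 0 (rd n) := by
    intro n
    have h1 : AnalyticOnNhd ℂ (fun z => f (φ z)) (closedBall 0 (rd n)) := by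
      intro z hz
      have hz1 : ‖z‖ < 1 := by
        rw [mem_closedBall, dist_zero_right] at hz
        exact hz.trans_lt (rd_lt n)
      exact (hfan _ (haσ.trans (hφre z hz1))).comp (hφan z hz1)
    have h2 := jensen_disc (rd_pos n) h1 (by rw [hφ0]; exact h0) hη
    rw [hφ0] at h2
    exact h2
  -- the limit
  have hlim : Tendsto (fun n => Real.circleAverage (fun z => lm η (f (φ z))) 0 (rd n)) atTop
      (𝓝 ((2 * Real.pi)⁻¹ * ∫ θ in (0 : ℝ)..(2 * Real.pi),
        lm η (f ((σ : ℂ) + ((t₀ + δ * Real.tan (Real.pi / 2 - (1 / 2) * θ) : ℝ) : ℂ) * I)))) := by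
    simp only [Real.circleAverage_def, smul_eq_mul]
    refine Tendsto.const_mul _ ?_
    refine intervalIntegral.tendsto_integral_filter_of_dominated_convergence
      (fun _ => |Real.log η| + |Real.log (max B η)|) ?_ ?_ ?_ ?_
    · refine Eventually.of_forall fun n => ?_
      refine Continuous.aestronglyMeasurable ?_
      refine (continuous_lm hη).comp ?_
      have h1 : ∀ θ : ℝ, ‖circleMap 0 (rd n) θ‖ < 1 := by
        intro θ
        rw [norm_circleMap_zero, abs_of_pos (rd_pos n)]
        exact rd_lt n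
      rw [continuous_iff_continuousAt]
      intro θ
      have h2 : ContinuousAt (fun z => f (φ z)) (circleMap 0 (rd n) θ) :=
        ((hfan _ (haσ.trans (hφre _ (h1 θ)))).comp (hφan _ (h1 θ))).continuousAt
      exact ContinuousAt.comp (f := fun θ : ℝ => circleMap 0 (rd n) θ) h2
        (continuous_circleMap 0 (rd n)).continuousAt
    · refine Eventually.of_forall fun n => Eventually.of_forall fun θ _ => ?_
      rw [Real.norm_eq_abs]
      refine lm_abs hη (hB _ ?_)
      refine (hφre _ ?_).le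
      rw [norm_circleMap_zero, abs_of_pos (rd_pos n)]
      exact rd_lt n
    · exact intervalIntegrable_const
    · have hae : ∀ᵐ θ : ℝ, θ ≠ 2 * Real.pi := by
        simp [ae_iff, measure_singleton]
      filter_upwards [hae] with θ hθ2 hθ
      rw [Set.uIoc_of_le (by positivity)] at hθ
      have hθ1 : θ < 2 * Real.pi := lt_of_le_of_ne hθ.2 hθ2
      refine ((continuous_lm hη).tendsto _).comp ?_
      have h1 : Tendsto (fun n => circleMap 0 (rd n) θ) atTop (𝓝 (Complex.exp (θ * I))) := by
        have h2 : Tendsto (fun n => ((rd n : ℝ) : ℂ)) atTop (𝓝 ((1 : ℝ) : ℂ)) :=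
          (Complex.continuous_ofReal.tendsto _).comp rd_tendsto
        have h3 := h2.mul_const (Complex.exp (θ * I))
        rw [Complex.ofReal_one, one_mul] at h3
        refine h3.congr fun n => ?_
        simp [circleMap]
      have hs : 0 < Real.sin (θ / 2) :=
        Real.sin_pos_of_pos_of_lt_pi (by linarith [hθ.1]) (by linarith)
      have hne1 : (1 - Complex.exp (θ * I)) ≠ 0 := by
        intro h
        have h4 : Complex.exp (θ * I) = 1 := (sub_eq_zero.1 h).symm
        rw [Complex.exp_eq_one_iff] at h4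
        obtain ⟨n, hn⟩ := h4
        have h5 : (θ : ℂ) = (n : ℂ) * (2 * Real.pi) := by
          have h6 : (θ : ℂ) * I = ((n : ℂ) * (2 * Real.pi)) * I := by
            rw [hn]
            ring
          exact mul_right_cancel₀ Complex.I_ne_zero h6
        have h7 : θ = n * (2 * Real.pi) := by exact_mod_cast h5
        have h8 : (0 : ℝ) < n := by
          by_contra hc
          push Not at hc
          have := hθ.1
          nlinarith [Real.pi_pos]
        have h9 : (n : ℝ) < 1 := by
          by_contra hc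
          push Not at hc
          nlinarith [Real.pi_pos]
        have h10 : (0 : ℤ) < n := by exact_mod_cast h8
        have h11 : (n : ℤ) < 1 := by exact_mod_cast h9
        omega
      have hφc : ContinuousAt φ (Complex.exp (θ * I)) := by
        rw [hφ]
        have h1 : ContinuousAt (fun z : ℂ => (1 + z) / (1 - z)) (Complex.exp (θ * I)) :=
          (continuousAt_const.add continuousAt_id).div (continuousAt_const.sub continuousAt_id) hne1
        exact continuousAt_const.add (continuousAt_const.mul h1)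
      have hval : φ (Complex.exp (θ * I)) = (σ : ℂ) +
          ((t₀ + δ * Real.tan (Real.pi / 2 - (1 / 2) * θ) : ℝ) : ℂ) * I := by
        rw [hφ]
        simp only
        rw [cayley_circle hθ.1 hθ1]
        push_cast
        ring
      have hfc : ContinuousAt f (φ (Complex.exp (θ * I))) := by
        refine (hfan _ ?_).continuousAt
        rw [hval, re_line]
        exact haσ
      have h4 : Tendsto (fun n => f (φ (circleMap 0 (rd n) θ))) atTop
          (𝓝 (f (φ (Complex.exp (θ * I))))) := (hfc.tendsto.comp hφc.tendsto).comp h1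
      rw [hval] at h4
      exact h4
  have hfin := ge_of_tendsto' hlim hJ
  refine hfin.trans (le_of_eq ?_)
  have h1 := intervalIntegral.integral_comp_sub_mul (a := 0) (b := 2 * Real.pi)
    (fun ψ : ℝ => lm η (f ((σ : ℂ) + ((t₀ + δ * Real.tan ψ : ℝ) : ℂ) * I)))
    (c := 1 / 2) (by norm_num) (Real.pi / 2)
  rw [h1]
  have e1 : Real.pi / 2 - 1 / 2 * (2 * Real.pi) = -(Real.pi / 2) := by ring
  have e2 : Real.pi / 2 - 1 / 2 * 0 = Real.pi / 2 := by ring
  rw [e1, e2, intervalIntegral.integral_of_le (by linarith [Real.pi_pos]),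
    integral_Ioc_eq_integral_Ioo,
    integral_tan (fun x => lm η (f ((σ : ℂ) + ((t₀ + δ * x : ℝ) : ℂ) * I))), smul_eq_mul]
  have hpi : Real.pi ≠ 0 := Real.pi_ne_zero
  generalize (∫ x : ℝ, lm η (f ((σ : ℂ) + ((t₀ + δ * x : ℝ) : ℂ) * I)) * (1 + x ^ 2)⁻¹) = J
  field_simp

end Pool.Agent.TH345.ET
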