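import Pool.Agent.TH345.ET.C

/-!
# Weighted integrals and unit intervals
-/

set_option autoImplicit false

namespace Pool.Agent.TH345.ET

open Complex MeasureTheory Filter Topology Metric
open scoped ENNReal

lemma weight_le {n : ℤ} {x : ℝ} (hx : x ∈ Set.Ico (n : ℝ) (n + 1)) :
    (1 + x ^ 2)⁻¹ ≤ 3 / (1 + (n : ℝ) ^ 2) := by
  have h1 : (0 : ℝ) < 1 + x ^ 2 := by positivity
  have h2 : (0 : ℝ) < 1 + (n : ℝ) ^ 2 := by positivity
  rw [inv_eq_one_div, div_le_div_iff₀ h1 h2]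
  obtain ⟨h3, h4⟩ := hx
  nlinarith [sq_nonneg (x + (x - n) / 2), sq_nonneg (2 * x - n), sq_nonneg (x - n),
    mul_nonneg (sub_nonneg.2 h3) (sub_nonneg.2 h4.le)]

lemma summable_weight : Summable fun n : ℤ => 3 / (1 + (n : ℝ) ^ 2) := by
  have h1 : Summable fun n : ℕ => 3 / (1 + ((n : ℤ) : ℝ) ^ 2) := by
    have h2 : Summable fun n : ℕ => 3 * (1 / (((n + 1 : ℕ) : ℝ)) ^ 2) * 2 := by
      refine Summable.mul_right _ (Summable.mul_left _ ?_)
      exact (summable_nat_add_iff 1).2 (Real.summable_one_div_nat_pow.2 one_lt_two)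
    refine Summable.of_nonneg_of_le (fun n => by positivity) (fun n => ?_) h2
    push_cast
    rw [div_le_iff₀ (by positivity)]
    have h3 : (0 : ℝ) < (n : ℝ) + 1 := by positivity
    have : 3 * (1 / ((n : ℝ) + 1) ^ 2) * 2 * (1 + (n : ℝ) ^ 2) =
        3 * (2 * (1 + (n : ℝ) ^ 2) / ((n : ℝ) + 1) ^ 2) := by
      field_simp
    rw [this]
    have h4 : 1 ≤ 2 * (1 + (n : ℝ) ^ 2) / ((n : ℝ) + 1) ^ 2 := by
      rw [le_div_iff₀ (by positivity)]
      nlinarith [sq_nonneg ((n : ℝ) - 1)]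
    linarith
  refine Summable.of_nat_of_neg h1 ?_
  refine h1.congr fun n => ?_
  push_cast
  ring

/-- the constant -/
noncomputable def WW : ℝ := ∑' n : ℤ, 3 / (1 + (n : ℝ) ^ 2)

lemma weighted {h : ℝ → ℝ≥0∞} {C : ℝ≥0∞} (hC : ∀ t : ℝ, ∫⁻ u in Set.Icc t (t + 1), h u ≤ C)
    (t₀ : ℝ) : ∫⁻ x : ℝ, h (t₀ + x) * ENNReal.ofReal ((1 + x ^ 2)⁻¹) ≤ C * ENNReal.ofReal WW := by
  have h1 : ∫⁻ x : ℝ, h (t₀ + x) * ENNReal.ofReal ((1 + x ^ 2)⁻¹) =
      ∑' n : ℤ, ∫⁻ x in Set.Ico (n : ℝ) (n + 1), h (t₀ + x) * ENNReal.ofReal ((1 + x ^ 2)⁻¹) := by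
    rw [← lintegral_iUnion (fun n : ℤ => measurableSet_Ico) (Set.pairwise_disjoint_Ico_intCast ℝ),
      iUnion_Ico_intCast, Measure.restrict_univ]
  rw [h1]
  have h2 : ∀ n : ℤ, ∫⁻ x in Set.Ico (n : ℝ) (n + 1), h (t₀ + x) * ENNReal.ofReal ((1 + x ^ 2)⁻¹)
      ≤ C * ENNReal.ofReal (3 / (1 + (n : ℝ) ^ 2)) := by
    intro n
    have h3 : ∫⁻ x in Set.Ico (n : ℝ) (n + 1), h (t₀ + x) * ENNReal.ofReal ((1 + x ^ 2)⁻¹) ≤
        ∫⁻ x in Set.Ico (n : ℝ) (n + 1), h (t₀ + x) * ENNReal.ofReal (3 / (1 + (n : ℝ) ^ 2)) := by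
      refine setLIntegral_mono' measurableSet_Ico fun x hx => ?_
      gcongr
      exact weight_le hx
    refine h3.trans ?_
    rw [lintegral_mul_const' _ _ ENNReal.ofReal_ne_top]
    gcongr
    have h4 : ∫⁻ x in Set.Ico (n : ℝ) (n + 1), h (t₀ + x) =
        ∫⁻ u in Set.Ico (t₀ + n) (t₀ + n + 1), h u := by
      rw [← lintegral_indicator measurableSet_Ico, ← lintegral_indicator measurableSet_Ico,
        ← lintegral_add_left_eq_self
          (fun u => (Set.Ico (t₀ + (n : ℝ)) (t₀ + n + 1)).indicator h u) t₀]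
      refine lintegral_congr fun x => ?_
      by_cases hx : x ∈ Set.Ico (n : ℝ) (n + 1)
      · have hx' : t₀ + x ∈ Set.Ico (t₀ + n) (t₀ + n + 1) :=
          ⟨by linarith [hx.1], by linarith [hx.2]⟩
        rw [Set.indicator_of_mem hx, Set.indicator_of_mem hx']
      · have hx' : t₀ + x ∉ Set.Ico (t₀ + n) (t₀ + n + 1) := fun hh =>
          hx ⟨by linarith [hh.1], by linarith [hh.2]⟩
        rw [Set.indicator_of_notMem hx, Set.indicator_of_notMem hx']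
    rw [h4]
    exact (lintegral_mono_set Set.Ico_subset_Icc_self).trans (hC _)
  refine (ENNReal.tsum_le_tsum h2).trans ?_
  rw [ENNReal.tsum_mul_left]
  unfold WW
  rw [ENNReal.ofReal_tsum_of_nonneg (fun n => by positivity) summable_weight]

end Pool.Agent.TH345.ET
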