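import Pool.Agent.TH345.ET.D

/-!
# Uniqueness: an analytic function with locally bounded logarithmic means has non-zero boundary values
-/

set_option autoImplicit false

namespace Pool.Agent.TH345.ET

open Complex MeasureTheory Filter Topology Metric
open scoped ENNReal

/-- the negative part of the logarithm, truncated -/
noncomputable def nn (η : ℝ) (w : ℂ) : ℝ := lm 1 w - lm η w

lemma nn_nonneg {η : ℝ} (hη : 0 < η) (hη1 : η ≤ 1) (w : ℂ) : 0 ≤ nn η w := by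
  unfold nn lm
  rw [sub_nonneg]
  exact Real.log_le_log (lt_max_of_lt_right hη) (max_le_max_left _ hη1)

lemma lm_one_nonneg (w : ℂ) : 0 ≤ lm 1 w := Real.log_nonneg (le_max_right _ _)

lemma continuous_nn {η : ℝ} (hη : 0 < η) : Continuous (nn η) :=
  (continuous_lm one_pos).sub (continuous_lm hη)

lemma nn_zero (η : ℝ) (hη : 0 < η) : nn η 0 = -Real.log η := by
  unfold nn lm
  rw [norm_zero, max_eq_right zero_le_one, max_eq_right hη.le, Real.log_one, zero_sub]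

/-- the points -/
noncomputable def sg (k : ℕ) : ℝ := 1 + 1 / ((k : ℝ) + 1)

lemma sg_gt (k : ℕ) : 1 < sg k := by
  unfold sg
  have : (0 : ℝ) < 1 / ((k : ℝ) + 1) := by positivity
  linarith

lemma sg_tendsto : Tendsto sg atTop (𝓝 1) := by
  unfold sg
  have := tendsto_one_div_add_atTop_nhds_zero_nat (𝕜 := ℝ)
  simpa using tendsto_const_nhds.add this

lemma sg_tendsto' : Tendsto sg atTop (𝓝[>] 1) :=
  tendsto_nhdsWithin_iff.2 ⟨sg_tendsto, Eventually.of_forall sg_gt⟩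

lemma integrable_w : Integrable fun x : ℝ => (1 + x ^ 2)⁻¹ := integrable_inv_one_add_sq

theorem unique {f : ℂ → ℂ} (hf : DifferentiableOn ℂ f {s | 1 < s.re})
    (hB : ∀ σ : ℝ, 1 < σ → ∃ B : ℝ, ∀ s : ℂ, σ ≤ s.re → ‖f s‖ ≤ B)
    {C : ℝ≥0∞} (hC0 : C ≠ ⊤)
    (hC : ∀ σ : ℝ, 1 < σ → ∀ t : ℝ,
      ∫⁻ u in Set.Icc t (t + 1), ENNReal.ofReal (lm 1 (f ((σ : ℂ) + (u : ℂ) * I))) ≤ C)
    (hE : ¬ ∀ᵐ τ : ℝ, ¬ Tendsto (fun σ : ℝ => f ((σ : ℂ) + (τ : ℂ) * I)) (𝓝[>] 1) (𝓝 0)) :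
    ∀ s : ℂ, 1 < s.re → f s = 0 := by
  by_contra hcon
  have hopen : IsOpen {s : ℂ | 1 < s.re} := isOpen_lt continuous_const Complex.continuous_re
  have hconv : Convex ℝ {s : ℂ | 1 < s.re} := convex_halfSpace_re_gt 1
  have han : AnalyticOnNhd ℂ f {s | 1 < s.re} := hf.analyticOnNhd hopen
  -- a point with `f ≠ 0` on the line `Re s = 2`
  obtain ⟨t₀, ht₀⟩ : ∃ t₀ : ℝ, f (((1 + 1 : ℝ) : ℂ) + t₀ * I) ≠ 0 := by
    by_contra hh
    push Not at hh
    refine hcon fun s hs => ?_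
    have h1 : ∃ᶠ z in 𝓝[≠] ((((1 + 1 : ℝ)) : ℂ) + ((0 : ℝ) : ℂ) * I), f z = 0 := by
      have h2 : Tendsto (fun t : ℝ => ((((1 + 1 : ℝ)) : ℂ) + (t : ℂ) * I)) (𝓝[≠] 0)
          (𝓝[≠] ((((1 + 1 : ℝ)) : ℂ) + ((0 : ℝ) : ℂ) * I)) := by
        refine tendsto_nhdsWithin_iff.2 ⟨?_, ?_⟩
        · have : Continuous fun t : ℝ => ((((1 + 1 : ℝ)) : ℂ) + (t : ℂ) * I) := by fun_prop
          exact (this.tendsto 0).mono_left nhdsWithin_le_nhds
        · filter_upwards [self_mem_nhdsWithin] with t ht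
          intro h
          apply ht
          have h3 := congrArg Complex.im h
          simpa using h3
      exact h2.frequently (Frequently.of_forall fun t => hh t)
    exact han.eqOn_zero_of_preconnected_of_frequently_eq_zero hconv.isPreconnected
      (by simp : (1 : ℝ) < ((((1 + 1 : ℝ)) : ℂ) + ((0 : ℝ) : ℂ) * I).re) h1 hs
  have hfc : ∀ σ : ℝ, 1 < σ → ∀ t : ℝ, Continuous fun x : ℝ =>
      f ((σ : ℂ) + ((t + 1 * x : ℝ) : ℂ) * I) := by
    intro σ hσ t
    refine hf.continuousOn.comp_continuous (by fun_prop) fun x => ?_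
    have h1 : ((σ : ℂ) + ((t + 1 * x : ℝ) : ℂ) * I).re = σ := re_line _ _
    exact hσ.trans_le h1.ge
  set V : ℝ := (C * ENNReal.ofReal WW).toReal with hV
  have hCW : C * ENNReal.ofReal WW ≠ ⊤ := ENNReal.mul_ne_top hC0 ENNReal.ofReal_ne_top
  -- the main inequality
  have hmain : ∀ η : ℝ, 0 < η → η ≤ 1 → ∀ k : ℕ,
      f (((sg k + 1 : ℝ) : ℂ) + t₀ * I) ≠ 0 →
      ∫⁻ x : ℝ, ENNReal.ofReal (nn η (f ((sg k : ℂ) + ((t₀ + 1 * x : ℝ) : ℂ) * I)) *
        (1 + x ^ 2)⁻¹) ≤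
        ENNReal.ofReal (V - Real.pi * Real.log ‖f (((sg k + 1 : ℝ) : ℂ) + t₀ * I)‖) := by
    intro η hη hη1 k hk
    obtain ⟨B, hBk⟩ := hB (sg k) (sg_gt k)
    have hJ := jensen_half (η := η) hf (sg_gt k) one_pos hBk hη hk
    have hb1 : ∀ (η' : ℝ), 0 < η' → Integrable fun x : ℝ =>
        lm η' (f ((sg k : ℂ) + ((t₀ + 1 * x : ℝ) : ℂ) * I)) * (1 + x ^ 2)⁻¹ := by
      intro η' hη'
      refine integrable_w.bdd_mul (c := |Real.log η'| + |Real.log (max B η')|)
        ((continuous_lm hη').comp (hfc _ (sg_gt k) t₀)).aestronglyMeasurable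
        (Eventually.of_forall fun x => ?_)
      rw [Real.norm_eq_abs]
      refine lm_abs hη' (hBk _ ?_)
      rw [re_line]
    have hI1 := hb1 1 one_pos
    have hI2 := hb1 η hη
    have hI3 : Integrable fun x : ℝ =>
        nn η (f ((sg k : ℂ) + ((t₀ + 1 * x : ℝ) : ℂ) * I)) * (1 + x ^ 2)⁻¹ := by
      refine (hI1.sub hI2).congr (Eventually.of_forall fun x => ?_)
      simp only [Pi.sub_apply, nn]
      ring
    have hsum : ∫ x : ℝ, nn η (f ((sg k : ℂ) + ((t₀ + 1 * x : ℝ) : ℂ) * I)) * (1 + x ^ 2)⁻¹ =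
        (∫ x : ℝ, lm 1 (f ((sg k : ℂ) + ((t₀ + 1 * x : ℝ) : ℂ) * I)) * (1 + x ^ 2)⁻¹) -
        ∫ x : ℝ, lm η (f ((sg k : ℂ) + ((t₀ + 1 * x : ℝ) : ℂ) * I)) * (1 + x ^ 2)⁻¹ := by
      rw [← integral_sub hI1 hI2]
      refine integral_congr_ae (Eventually.of_forall fun x => ?_)
      simp only [nn]
      ring
    have hV1 : ∫ x : ℝ, lm 1 (f ((sg k : ℂ) + ((t₀ + 1 * x : ℝ) : ℂ) * I)) * (1 + x ^ 2)⁻¹ ≤ V := by
      rw [hV, ← ENNReal.ofReal_le_iff_le_toReal hCW,
        ofReal_integral_eq_lintegral_ofReal hI1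
          (Eventually.of_forall fun x => mul_nonneg (lm_one_nonneg _) (by positivity))]
      have hw := weighted (h := fun u => ENNReal.ofReal (lm 1 (f ((sg k : ℂ) + (u : ℂ) * I))))
        (hC (sg k) (sg_gt k)) t₀
      refine le_trans (le_of_eq ?_) hw
      refine lintegral_congr fun x => ?_
      rw [ENNReal.ofReal_mul (lm_one_nonneg _), one_mul]
    rw [← ofReal_integral_eq_lintegral_ofReal hI3
      (Eventually.of_forall fun x => mul_nonneg (nn_nonneg hη hη1 _) (by positivity))]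
    refine ENNReal.ofReal_le_ofReal ?_
    rw [hsum]
    have hpi := Real.pi_pos
    have h5 : Real.pi * Real.log ‖f (((sg k + 1 : ℝ) : ℂ) + t₀ * I)‖ ≤
        ∫ x : ℝ, lm η (f ((sg k : ℂ) + ((t₀ + 1 * x : ℝ) : ℂ) * I)) * (1 + x ^ 2)⁻¹ := by
      have h6 := mul_le_mul_of_nonneg_left hJ hpi.le
      rw [← mul_assoc, mul_inv_cancel₀ hpi.ne', one_mul] at h6
      exact h6
    linarith
  -- the limit of the right hand side
  have hlimf : Tendsto (fun k => f (((sg k + 1 : ℝ) : ℂ) + t₀ * I)) atTop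
      (𝓝 (f (((1 + 1 : ℝ) : ℂ) + t₀ * I))) := by
    have h1 : ContinuousAt f (((1 + 1 : ℝ) : ℂ) + t₀ * I) :=
      (han _ (by simp)).continuousAt
    refine h1.tendsto.comp ?_
    have h2 : Continuous fun x : ℝ => (((x + 1 : ℝ) : ℂ) + t₀ * I) := by fun_prop
    exact (h2.tendsto 1).comp sg_tendsto
  have hlog : Tendsto (fun k => V - Real.pi * Real.log ‖f (((sg k + 1 : ℝ) : ℂ) + t₀ * I)‖) atTop
      (𝓝 (V - Real.pi * Real.log ‖f (((1 + 1 : ℝ) : ℂ) + t₀ * I)‖)) :=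
    tendsto_const_nhds.sub ((hlimf.norm.log (norm_ne_zero_iff.2 ht₀)).const_mul _)
  set K : ℝ := V - Real.pi * Real.log ‖f (((1 + 1 : ℝ) : ℂ) + t₀ * I)‖ + 1 with hK
  have hevK : ∀ᶠ k in atTop, V - Real.pi * Real.log ‖f (((sg k + 1 : ℝ) : ℂ) + t₀ * I)‖ ≤ K :=
    hlog.eventually_le_const (by rw [hK]; linarith)
  have hevne : ∀ᶠ k in atTop, f (((sg k + 1 : ℝ) : ℂ) + t₀ * I) ≠ 0 := hlimf.eventually_ne ht₀
  -- the exceptional set
  set E : Set ℝ := {x : ℝ | Tendsto (fun k => f ((sg k : ℂ) + ((t₀ + 1 * x : ℝ) : ℂ) * I)) atTop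
    (𝓝 0)} with hEdef
  have hEm : MeasurableSet E := measurableSet_tendsto _ fun k => (hfc _ (sg_gt k) t₀).measurable
  set m : ℝ≥0∞ := ∫⁻ x in E, ENNReal.ofReal ((1 + x ^ 2)⁻¹) with hm
  have hbound : ∀ n : ℕ, (n : ℝ≥0∞) * m ≤ ENNReal.ofReal K := by
    intro n
    set η : ℝ := Real.exp (-(n : ℝ)) with hη
    have hη0 : 0 < η := Real.exp_pos _
    have hη1 : η ≤ 1 := Real.exp_le_one_iff.2 (by simp)
    have h1 : ∫⁻ x : ℝ, liminf (fun k => ENNReal.ofReal
        (nn η (f ((sg k : ℂ) + ((t₀ + 1 * x : ℝ) : ℂ) * I)) * (1 + x ^ 2)⁻¹)) atTop ≤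
        ENNReal.ofReal K := by
      refine (lintegral_liminf_le fun k => ?_).trans ?_
      · refine ENNReal.measurable_ofReal.comp ?_
        exact (((continuous_nn hη0).comp (hfc _ (sg_gt k) t₀)).measurable).mul (by fun_prop)
      · refine liminf_le_of_frequently_le' (Eventually.frequently ?_)
        filter_upwards [hevK, hevne] with k h2 h3
        exact (hmain η hη0 hη1 k h3).trans (ENNReal.ofReal_le_ofReal h2)
    refine le_trans ?_ h1
    rw [hm, ← lintegral_const_mul' _ _ (ENNReal.natCast_ne_top n),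
      ← lintegral_indicator hEm]
    refine lintegral_mono fun x => ?_
    by_cases hx : x ∈ E
    · rw [Set.indicator_of_mem hx]
      have h2 : Tendsto (fun k => ENNReal.ofReal
          (nn η (f ((sg k : ℂ) + ((t₀ + 1 * x : ℝ) : ℂ) * I)) * (1 + x ^ 2)⁻¹)) atTop
          (𝓝 (ENNReal.ofReal (nn η 0 * (1 + x ^ 2)⁻¹))) := by
        refine (ENNReal.continuous_ofReal.tendsto _).comp ?_
        refine Tendsto.mul_const _ ?_
        exact ((continuous_nn hη0).tendsto 0).comp hx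
      rw [h2.liminf_eq, nn_zero _ hη0, hη, Real.log_exp, neg_neg,
        ENNReal.ofReal_mul (Nat.cast_nonneg n), ENNReal.ofReal_natCast]
    · rw [Set.indicator_of_notMem hx]
      exact zero_le
  have hm0 : m = 0 := by
    by_contra hne
    have h1 : ∃ n : ℕ, ENNReal.ofReal K / m < n := by
      refine ENNReal.exists_nat_gt ?_
      exact (ENNReal.div_lt_top ENNReal.ofReal_ne_top hne).ne
    obtain ⟨n, hn⟩ := h1
    have h2 := hbound n
    have hmt : m ≠ ⊤ := by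
      intro h
      have h3 := hbound 1
      rw [h] at h3
      simp at h3
    rw [ENNReal.div_lt_iff (Or.inl hne) (Or.inl hmt)] at hn
    exact absurd h2 (not_le.2 hn)
  have hE0 : volume E = 0 := by
    rw [hm, lintegral_eq_zero_iff (by fun_prop)] at hm0
    by_contra hne
    have h1 : ∀ᵐ x ∂(volume.restrict E), False := by
      filter_upwards [hm0] with x hx
      simp only [Pi.zero_apply, ENNReal.ofReal_eq_zero] at hx
      have : (0 : ℝ) < (1 + x ^ 2)⁻¹ := by positivity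
      linarith
    rw [ae_iff] at h1
    simp only [not_false_eq_true, Set.ofPred_true] at h1
    rw [Measure.restrict_apply_univ] at h1
    exact hne h1
  apply hE
  have h1 : ∀ᵐ x : ℝ, x ∉ E := measure_eq_zero_iff_ae_notMem.1 hE0
  have h2 : ∀ᵐ τ : ℝ, (τ - t₀) ∉ E := by
    have := (measurePreserving_sub_right (volume : Measure ℝ) t₀).quasiMeasurePreserving.ae h1
    exact this
  filter_upwards [h2] with τ hτ hT
  apply hτ
  rw [hEdef]
  simp only [Set.mem_ofPred_eq]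
  have h3 := hT.comp sg_tendsto'
  refine h3.congr fun k => ?_
  simp only [Function.comp_apply]
  congr 3
  congr 1
  ring

end Pool.Agent.TH345.ET
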