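import Mathlib

/-!
# Linear independence of non-equivalent multiplicative functions
-/

set_option autoImplicit false

namespace Pool.Agent.TH345.ET

open Finset ArithmeticFunction

variable {ι : Type*}

/-- evaluation -/
noncomputable def evh (n : ℕ) : ArithmeticFunction ℂ →+ ℂ where
  toFun f := f n
  map_zero' := rfl
  map_add' _ _ := rfl

lemma sum_af (s : Finset ι) (g : ι → ArithmeticFunction ℂ) (n : ℕ) :
    (∑ i ∈ s, g i) n = ∑ i ∈ s, g i n := map_sum (evh n) g s

/-- non-equivalence: different values at powers of arbitrarily large primes -/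
def NE (f g : ArithmeticFunction ℂ) : Prop :=
  ∀ S : Finset ℕ, ∃ p : ℕ, p.Prime ∧ p ∉ S ∧ ∃ e : ℕ, f (p ^ e) ≠ g (p ^ e)

lemma NE.symm {f g : ArithmeticFunction ℂ} (h : NE f g) : NE g f := fun S => by
  obtain ⟨p, h1, h2, e, h3⟩ := h S
  exact ⟨p, h1, h2, e, h3.symm⟩

/-- Pairwise non-equivalent multiplicative functions are linearly independent on the integers free of
given primes. -/
lemma kmp [DecidableEq ι] (f : ι → ArithmeticFunction ℂ) (s : Finset ι)
    (hf : ∀ i ∈ s, (f i).IsMultiplicative)
    (hne : ∀ i ∈ s, ∀ j ∈ s, i ≠ j → NE (f i) (f j)) :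
    ∀ (S : Finset ℕ) (c : ι → ℂ),
      (∀ n : ℕ, n ≠ 0 → (∀ p : ℕ, p.Prime → p ∈ S → ¬ p ∣ n) → ∑ i ∈ s, c i * f i n = 0) →
      ∀ i ∈ s, c i = 0 := by
  induction s using Finset.induction with
  | empty => intro S c _ i hi; simp at hi
  | insert a s ha ih =>
    intro S c hc
    have ih' := ih (fun i hi => hf i (mem_insert_of_mem hi))
      (fun i hi j hj hij => hne i (mem_insert_of_mem hi) j (mem_insert_of_mem hj) hij)
    have h0 : ∀ i ∈ s, c i = 0 := by
      intro i hi
      have hia : i ≠ a := fun h => ha (h ▸ hi)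
      obtain ⟨p, hp, hpS, e, he⟩ := hne i (mem_insert_of_mem hi) a (mem_insert_self a s) hia S
      have h1 := ih' (insert p S) (fun k => c k * (f k (p ^ e) - f a (p ^ e))) ?_ i hi
      · rcases mul_eq_zero.1 h1 with h2 | h2
        · exact h2
        · exact absurd (sub_eq_zero.1 h2) he
      · intro n hn hnS
        have hnS' : ∀ q : ℕ, q.Prime → q ∈ S → ¬ q ∣ n := fun q hq hqS =>
          hnS q hq (mem_insert_of_mem hqS)
        have hpn : ¬ p ∣ n := hnS p hp (mem_insert_self p S)
        have hcop : Nat.Coprime (p ^ e) n := Nat.Coprime.pow_left e ((Nat.Prime.coprime_iff_not_dvd hp).2 hpn)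
        have e1 := hc n hn hnS'
        have e2 := hc (p ^ e * n) (mul_ne_zero (pow_ne_zero e hp.ne_zero) hn) (by
          intro q hq hqS hdvd
          rcases (Nat.Prime.dvd_mul hq).1 hdvd with h | h
          · have := (Nat.prime_dvd_prime_iff_eq hq hp).1 (hq.dvd_of_dvd_pow h)
            exact hpS (this ▸ hqS)
          · exact hnS' q hq hqS h)
        rw [sum_insert ha] at e1 e2
        have e3 : ∀ k ∈ insert a s, f k (p ^ e * n) = f k (p ^ e) * f k n := fun k hk =>
          (hf k hk).map_mul_of_coprime hcop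
        rw [e3 a (mem_insert_self a s)] at e2
        have e4 : ∑ k ∈ s, c k * f k (p ^ e * n) = ∑ k ∈ s, c k * (f k (p ^ e) * f k n) :=
          sum_congr rfl fun k hk => by rw [e3 k (mem_insert_of_mem hk)]
        rw [e4] at e2
        have e5 : ∑ k ∈ s, c k * (f k (p ^ e) - f a (p ^ e)) * f k n =
            ∑ k ∈ s, c k * (f k (p ^ e) * f k n) - f a (p ^ e) * ∑ k ∈ s, c k * f k n := by
          rw [mul_sum, ← sum_sub_distrib]
          exact sum_congr rfl fun k _ => by ring
        rw [e5]
        linear_combination e2 - f a (p ^ e) * e1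
    intro i hi
    rcases mem_insert.1 hi with h | h
    · subst h
      have e1 := hc 1 one_ne_zero (fun p hp _ hd => hp.one_lt.ne' (Nat.dvd_one.1 hd))
      rw [sum_insert ha, sum_eq_zero (fun k hk => by rw [h0 k hk, zero_mul]), add_zero,
        (hf i (mem_insert_self i s)).map_one, mul_one] at e1
      exact e1
    · exact h0 i h

/-- the version with coefficients supported on the integers composed of given primes -/
lemma vanish [DecidableEq ι] (f : ι → ArithmeticFunction ℂ) (s : Finset ι)
    (hf : ∀ i ∈ s, (f i).IsMultiplicative)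
    (hne : ∀ i ∈ s, ∀ j ∈ s, i ≠ j → NE (f i) (f j)) (S : Finset ℕ)
    (D : ι → ArithmeticFunction ℂ)
    (hD : ∀ i ∈ s, ∀ n : ℕ, D i n ≠ 0 → ∀ p : ℕ, p.Prime → p ∣ n → p ∈ S)
    (h0 : ∑ i ∈ s, D i * f i = 0) : ∀ i ∈ s, D i = 0 := by
  have key : ∀ u : ℕ, ∀ i ∈ s, D i u = 0 := by
    intro u
    induction u using Nat.strong_induction_on with
    | _ u ih =>
      by_cases hu : u = 0
      · intro i _
        rw [hu]
        exact (D i).map_zero
      by_cases huS : ∀ p : ℕ, p.Prime → p ∣ u → p ∈ S
      swap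
      · intro i hi
        by_contra hne0
        exact huS (hD i hi u hne0)
      refine kmp f s hf hne S (fun i => D i u) fun v hv hvS => ?_
      have h1 : (∑ i ∈ s, D i * f i) (u * v) = 0 := by rw [h0]; rfl
      have h2 := sum_af s (fun i => D i * f i) (u * v)
      rw [h2] at h1
      rw [← h1]
      refine sum_congr rfl fun i hi => ?_
      rw [ArithmeticFunction.mul_apply]
      rw [sum_eq_single (u, v)]
      · rintro ⟨d, m⟩ hdm hneq
        rw [Nat.mem_divisorsAntidiagonal] at hdm
        obtain ⟨hdm1, hdm0⟩ := hdm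
        simp only at hdm1 ⊢
        by_cases hDd : D i d = 0
        · rw [hDd, zero_mul]
        exfalso
        have hdS := hD i hi d hDd
        have hcop : Nat.Coprime d v := by
          refine Nat.coprime_of_dvd fun p hp hpd hpv => ?_
          exact hvS p hp (hdS p hp hpd) hpv
        have hdu : d ∣ u := hcop.dvd_of_dvd_mul_right (Dvd.intro m hdm1)
        have hdle : d ≤ u := Nat.le_of_dvd (Nat.pos_of_ne_zero hu) hdu
        rcases hdle.lt_or_eq with hlt | heq
        · exact hDd (ih d hlt i hi)
        · apply hneq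
          subst heq
          have : m = v := Nat.eq_of_mul_eq_mul_left (Nat.pos_of_ne_zero hu) hdm1
          rw [this]
      · intro h
        exfalso
        apply h
        rw [Nat.mem_divisorsAntidiagonal]
        exact ⟨rfl, mul_ne_zero hu hv⟩
  intro i hi
  ext n
  rw [key n i hi]
  rfl

end Pool.Agent.TH345.ET
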