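import Pool.Agent.TH345.ET.F
import Pool.Agent.TH339.MP.R1

/-!
# The multiplicative functions of Euler products
-/

set_option autoImplicit false

namespace Pool.Agent.TH345.ET

open Finset ArithmeticFunction
open Pool.Agent.TH339.MP (FF bα norm_bα hasProd_α fα)

/-- the completely multiplicative function with given values at the primes -/
noncomputable def cm (α : ℕ → ℂ) : ArithmeticFunction ℂ :=
  ⟨fun n => if n = 0 then 0 else n.factorization.prod fun p e => α p ^ e, by simp⟩

lemma cm_apply (α : ℕ → ℂ) {n : ℕ} (hn : n ≠ 0) :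
    cm α n = n.factorization.prod fun p e => α p ^ e := by
  change (if n = 0 then 0 else n.factorization.prod fun p e => α p ^ e) = _
  rw [if_neg hn]

lemma cm_one (α : ℕ → ℂ) : cm α 1 = 1 := by
  rw [cm_apply α one_ne_zero]
  simp

lemma cm_mul (α : ℕ → ℂ) {m n : ℕ} (hm : m ≠ 0) (hn : n ≠ 0) :
    cm α (m * n) = cm α m * cm α n := by
  rw [cm_apply α hm, cm_apply α hn, cm_apply α (mul_ne_zero hm hn), Nat.factorization_mul hm hn,
    Finsupp.prod_add_index']
  · intro a
    simp
  · intro a b c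
    rw [pow_add]

lemma cm_prime_pow (α : ℕ → ℂ) {p : ℕ} (hp : p.Prime) (e : ℕ) : cm α (p ^ e) = α p ^ e := by
  rw [cm_apply α (pow_ne_zero e hp.ne_zero), hp.factorization_pow, Finsupp.prod_single_index]
  simp

lemma cm_isMultiplicative (α : ℕ → ℂ) : (cm α).IsMultiplicative := by
  refine ⟨cm_one α, fun {m n} _ => ?_⟩
  rcases eq_or_ne m 0 with rfl | hm
  · simp
  rcases eq_or_ne n 0 with rfl | hn
  · simp
  exact cm_mul α hm hn

lemma norm_cm_le {α : ℕ → ℂ} (hα : ∀ p : ℕ, p.Prime → ‖α p‖ ≤ 1) (n : ℕ) : ‖cm α n‖ ≤ 1 := by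
  rcases eq_or_ne n 0 with rfl | hn
  · simp
  rw [cm_apply α hn, Finsupp.prod, norm_prod]
  refine prod_le_one (fun _ _ => norm_nonneg _) fun p hp => ?_
  rw [norm_pow]
  exact pow_le_one₀ (norm_nonneg _) (hα p (Nat.prime_of_mem_primeFactors
    (by rwa [Nat.support_factorization] at hp)))

lemma cm_summable {α : ℕ → ℂ} (hα : ∀ p : ℕ, p.Prime → ‖α p‖ ≤ 1) {s : ℂ} (hs : 1 < s.re) :
    LSeriesSummable (cm α) s :=
  LSeriesSummable_of_bounded_of_one_lt_re (m := 1) (fun n _ => norm_cm_le hα n) hs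

/-- the twisted function as a homomorphism -/
noncomputable def cmh (α : ℕ → ℂ) (s : ℂ) : ℕ →*₀ ℂ where
  toFun n := LSeries.term (cm α) s n
  map_zero' := by simp
  map_one' := by simp [LSeries.term, cm_one]
  map_mul' m n := by
    rcases eq_or_ne m 0 with rfl | hm
    · simp
    rcases eq_or_ne n 0 with rfl | hn
    · simp
    rw [LSeries.term_of_ne_zero hm, LSeries.term_of_ne_zero hn,
      LSeries.term_of_ne_zero (mul_ne_zero hm hn), cm_mul α hm hn]
    push_cast
    rw [Complex.natCast_mul_natCast_cpow]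
    rw [mul_div_mul_comm]

lemma cm_hasProd {α : ℕ → ℂ} (hα : ∀ p : ℕ, p.Prime → ‖α p‖ ≤ 1) {s : ℂ} (hs : 1 < s.re) :
    HasProd (fun p : Nat.Primes => (1 - α p * ((p : ℕ) : ℂ) ^ (-s))⁻¹) (LSeries (cm α) s) := by
  have h1 : Summable fun n => ‖cmh α s n‖ := (cm_summable hα hs).norm
  have h2 := EulerProduct.eulerProduct_completely_multiplicative_hasProd h1
  have h3 : (fun p : Nat.Primes => (1 - cmh α s p)⁻¹) =
      fun p : Nat.Primes => (1 - α p * ((p : ℕ) : ℂ) ^ (-s))⁻¹ := by
    funext p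
    congr 2
    change LSeries.term (cm α) s p = _
    rw [LSeries.term_of_ne_zero p.2.ne_zero]
    have := cm_prime_pow α p.2 1
    rw [pow_one, pow_one] at this
    rw [this, Complex.cpow_neg, div_eq_mul_inv]
  rw [h3] at h2
  exact h2

section
variable {N : ℕ}

/-- the Dirichlet coefficients of the Euler product -/
noncomputable def Fc (α : ℕ → Fin N → ℂ) : ArithmeticFunction ℂ := ∏ i, cm (fun p => α p i)

/-- `f` is the coefficient function of `φ` -/
def Rep (f : ArithmeticFunction ℂ) (φ : ℂ → ℂ) : Prop :=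
  ∀ s : ℂ, 1 < s.re → LSeriesSummable f s ∧ LSeries f s = φ s

lemma Rep.mul {f g : ArithmeticFunction ℂ} {φ ψ : ℂ → ℂ} (h : Rep f φ) (h' : Rep g ψ) :
    Rep (f * g) (fun s => φ s * ψ s) := by
  intro s hs
  refine ⟨ArithmeticFunction.LSeriesSummable_mul (h s hs).1 (h' s hs).1, ?_⟩
  rw [ArithmeticFunction.LSeries_mul' (h s hs).1 (h' s hs).1, (h s hs).2, (h' s hs).2]

/-- the indicator of one integer -/
noncomputable def sng (n : ℕ) : ArithmeticFunction ℂ :=
  ⟨fun k => if k = 0 then 0 else if k = n then 1 else 0, by simp⟩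

lemma sng_apply (n : ℕ) {k : ℕ} (hk : k ≠ 0) : sng n k = if k = n then 1 else 0 := by
  change (if k = 0 then (0 : ℂ) else if k = n then 1 else 0) = _
  rw [if_neg hk]

lemma sng_one : sng 1 = 1 := by
  ext k
  rcases eq_or_ne k 0 with rfl | hk
  · simp
  rw [sng_apply 1 hk, ArithmeticFunction.one_apply]

lemma Rep.sng {n : ℕ} (hn : n ≠ 0) : Rep (sng n) (fun s => (n : ℂ) ^ (-s)) := by
  intro s _
  have h1 : HasSum (LSeries.term (ET.sng n) s) (LSeries.term (ET.sng n) s n) := by
    refine hasSum_single n fun k hk => ?_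
    rcases eq_or_ne k 0 with rfl | hk0
    · simp
    rw [LSeries.term_of_ne_zero hk0, sng_apply n hk0, if_neg hk, zero_div]
  have h2 : LSeries.term (ET.sng n) s n = (n : ℂ) ^ (-s) := by
    rw [LSeries.term_of_ne_zero hn, sng_apply n hn, if_pos rfl, Complex.cpow_neg, one_div]
  rw [h2] at h1
  exact ⟨h1.summable, h1.tsum_eq⟩

lemma Rep.one : Rep 1 (fun _ => 1) := by
  intro s hs
  have h := Rep.sng one_ne_zero s hs
  rw [sng_one] at h
  simpa using h

lemma Rep.add {f g : ArithmeticFunction ℂ} {φ ψ : ℂ → ℂ} (h : Rep f φ) (h' : Rep g ψ) :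
    Rep (f + g) (fun s => φ s + ψ s) := by
  intro s hs
  refine ⟨(h s hs).1.add (h' s hs).1, ?_⟩
  have := LSeries_add (h s hs).1 (h' s hs).1
  rw [(h s hs).2, (h' s hs).2] at this
  exact this

lemma Rep.zero : Rep 0 (fun _ => 0) := by
  intro s _
  have h1 : LSeries.term (fun n => (0 : ArithmeticFunction ℂ) n) s = fun _ => 0 := by
    funext n
    simp [LSeries.term]
  constructor
  · change Summable (LSeries.term (fun n => (0 : ArithmeticFunction ℂ) n) s)
    rw [h1]
    exact summable_zero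
  · change ∑' n, LSeries.term (fun n => (0 : ArithmeticFunction ℂ) n) s n = 0
    rw [h1]
    exact tsum_zero

lemma Rep.smul {f : ArithmeticFunction ℂ} {φ : ℂ → ℂ} (c : ℂ) (h : Rep f φ) :
    Rep (c • f) (fun s => c * φ s) := by
  intro s hs
  refine ⟨(h s hs).1.smul c, ?_⟩
  have := LSeries_smul (fun n => f n) c s
  rw [(h s hs).2] at this
  exact this

lemma Rep.sum {ι : Type*} (t : Finset ι) {f : ι → ArithmeticFunction ℂ} {φ : ι → ℂ → ℂ}
    (h : ∀ i ∈ t, Rep (f i) (φ i)) : Rep (∑ i ∈ t, f i) (fun s => ∑ i ∈ t, φ i s) := by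
  classical
  induction t using Finset.induction with
  | empty => simpa using Rep.zero
  | insert a t ha ih =>
    rw [sum_insert ha]
    simp_rw [sum_insert ha]
    exact (h a (mem_insert_self a t)).add (ih fun i hi => h i (mem_insert_of_mem hi))

lemma Rep.prod {ι : Type*} (t : Finset ι) {f : ι → ArithmeticFunction ℂ} {φ : ι → ℂ → ℂ}
    (h : ∀ i ∈ t, Rep (f i) (φ i)) : Rep (∏ i ∈ t, f i) (fun s => ∏ i ∈ t, φ i s) := by
  classical
  induction t using Finset.induction with
  | empty => simpa using Rep.one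
  | insert a t ha ih =>
    rw [prod_insert ha]
    simp_rw [prod_insert ha]
    exact (h a (mem_insert_self a t)).mul (ih fun i hi => h i (mem_insert_of_mem hi))

lemma Rep.pow {f : ArithmeticFunction ℂ} {φ : ℂ → ℂ} (h : Rep f φ) (n : ℕ) :
    Rep (f ^ n) (fun s => φ s ^ n) := by
  induction n with
  | zero => simpa using Rep.one
  | succ n ih =>
    simp_rw [pow_succ]
    exact ih.mul h

lemma rep_Fc {α : ℕ → Fin N → ℂ} (hα : ∀ p : ℕ, p.Prime → ∀ j, ‖α p j‖ ≤ 1) :
    Rep (Fc α) (fun s => Complex.exp (FF (bα α ∅) s)) := by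
  have h1 : Rep (Fc α) (fun s => ∏ i, LSeries (cm fun p => α p i) s) := by
    unfold Fc
    refine Rep.prod _ fun i _ s hs => ⟨cm_summable (fun p hp => hα p hp i) hs, rfl⟩
  intro s hs
  refine ⟨(h1 s hs).1, ?_⟩
  rw [(h1 s hs).2]
  have h2 : HasProd (fun p : Nat.Primes => ∏ i, (1 - α p i * ((p : ℕ) : ℂ) ^ (-s))⁻¹)
      (∏ i, LSeries (cm fun p => α p i) s) :=
    hasProd_prod fun i _ => cm_hasProd (fun p hp => hα p hp i) hs
  have h3 := hasProd_α (S := ∅) (fun p hp _ j => hα p hp j) hs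
  have h4 : fα α ∅ s = fun p : Nat.Primes => ∏ i, (1 - α p i * ((p : ℕ) : ℂ) ^ (-s))⁻¹ := by
    funext p
    unfold fα
    rw [if_neg (notMem_empty _)]
  rw [h4] at h3
  exact h2.unique h3

lemma isMultiplicative_one : (1 : ArithmeticFunction ℂ).IsMultiplicative :=
  ArithmeticFunction.isMultiplicative_one

lemma im_prod {ι : Type*} (t : Finset ι) {f : ι → ArithmeticFunction ℂ}
    (h : ∀ i ∈ t, (f i).IsMultiplicative) : (∏ i ∈ t, f i).IsMultiplicative := by
  classical
  induction t using Finset.induction with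
  | empty => simp
  | insert a t ha ih =>
    rw [prod_insert ha]
    exact (h a (mem_insert_self a t)).mul (ih fun i hi => h i (mem_insert_of_mem hi))

lemma im_pow {f : ArithmeticFunction ℂ} (h : f.IsMultiplicative) (n : ℕ) :
    (f ^ n).IsMultiplicative := by
  induction n with
  | zero => simp
  | succ n ih =>
    rw [pow_succ]
    exact ih.mul h

lemma im_Fc (α : ℕ → Fin N → ℂ) : (Fc α).IsMultiplicative :=
  im_prod _ fun i _ => cm_isMultiplicative _

end

end Pool.Agent.TH345.ET
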