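import Pool.Agent.TH345.ET.G

/-!
# Local power series
-/

set_option autoImplicit false

namespace Pool.Agent.TH345.ET

open Finset ArithmeticFunction

/-- the local power series at `p` -/
noncomputable def loc (p : ℕ) (f : ArithmeticFunction ℂ) : PowerSeries ℂ :=
  PowerSeries.mk fun e => f (p ^ e)

lemma loc_mul {p : ℕ} (hp : p.Prime) (f g : ArithmeticFunction ℂ) :
    loc p (f * g) = loc p f * loc p g := by
  ext n
  rw [PowerSeries.coeff_mul]
  unfold loc
  simp only [PowerSeries.coeff_mk]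
  rw [ArithmeticFunction.mul_apply, Nat.sum_divisorsAntidiagonal (fun x y => f x * g y),
    Nat.divisors_prime_pow hp, sum_map, Finset.Nat.sum_antidiagonal_eq_sum_range_succ_mk]
  refine sum_congr rfl fun k hk => ?_
  rw [mem_range] at hk
  simp only [Function.Embedding.coeFn_mk]
  rw [Nat.pow_div (by omega) hp.pos]

lemma loc_one {p : ℕ} (hp : p.Prime) : loc p 1 = 1 := by
  ext n
  unfold loc
  rw [PowerSeries.coeff_mk, PowerSeries.coeff_one, ArithmeticFunction.one_apply]
  congr 1
  rw [Nat.pow_eq_one]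
  simp [hp.one_lt.ne']

/-- the local series as a homomorphism -/
noncomputable def loch {p : ℕ} (hp : p.Prime) : ArithmeticFunction ℂ →* PowerSeries ℂ where
  toFun := loc p
  map_one' := loc_one hp
  map_mul' := loc_mul hp

lemma loc_cm {p : ℕ} (hp : p.Prime) (α : ℕ → ℂ) :
    (1 - PowerSeries.C (α p) * PowerSeries.X) * loc p (cm α) = 1 := by
  ext n
  rw [sub_mul, one_mul, map_sub, mul_assoc, PowerSeries.coeff_C_mul, PowerSeries.coeff_one]
  unfold loc
  cases n with
  | zero =>
    rw [PowerSeries.coeff_mk, cm_prime_pow α hp, PowerSeries.coeff_zero_X_mul]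
    simp
  | succ n =>
    rw [PowerSeries.coeff_mk, cm_prime_pow α hp, PowerSeries.coeff_succ_X_mul,
      PowerSeries.coeff_mk, cm_prime_pow α hp]
    simp only [Nat.succ_ne_zero, if_false]
    ring

section
variable {N : ℕ}

/-- the local polynomial `∏ (1 - α_{p,i} X)` -/
noncomputable def LP (α : ℕ → Fin N → ℂ) (p : ℕ) : Polynomial ℂ :=
  ∏ i, (1 - Polynomial.C (α p i) * Polynomial.X)

lemma loc_Fc {p : ℕ} (hp : p.Prime) (α : ℕ → Fin N → ℂ) :
    (LP α p : PowerSeries ℂ) * loc p (Fc α) = 1 := by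
  have h1 : loc p (Fc α) = ∏ i, loc p (cm fun p => α p i) := by
    change loch hp (Fc α) = ∏ i, loch hp (cm fun p => α p i)
    unfold Fc
    rw [map_prod]
  have h2 : (LP α p : PowerSeries ℂ) = ∏ i, (1 - PowerSeries.C (α p i) * PowerSeries.X) := by
    unfold LP
    have h3 := map_prod (Polynomial.coeToPowerSeries.ringHom (R := ℂ))
      (fun i => (1 - Polynomial.C (α p i) * Polynomial.X)) univ
    simp only [Polynomial.coeToPowerSeries.ringHom_apply] at h3
    rw [h3]
    refine prod_congr rfl fun i _ => ?_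
    simp
  rw [h1, h2, ← prod_mul_distrib]
  exact prod_eq_one fun i _ => loc_cm hp (fun p => α p i)

end

section
variable {J : Type*} {N : J → ℕ}

/-- the coefficient function of a monomial -/
noncomputable def Mc (α : (j : J) → ℕ → Fin (N j) → ℂ) (a : J →₀ ℕ) : ArithmeticFunction ℂ :=
  ∏ j ∈ a.support, Fc (α j) ^ a j

/-- the local polynomial of a monomial -/
noncomputable def MP (α : (j : J) → ℕ → Fin (N j) → ℂ) (p : ℕ) (a : J →₀ ℕ) : Polynomial ℂ :=
  ∏ j ∈ a.support, LP (α j) p ^ a j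

/-- multiplicative independence of the Euler products up to finitely many factors -/
def MI (α : (j : J) → ℕ → Fin (N j) → ℂ) : Prop :=
  ∀ a a' : J →₀ ℕ, a ≠ a' → ∀ S : Finset ℕ, ∃ p : ℕ, p.Prime ∧ p ∉ S ∧ MP α p a ≠ MP α p a'

lemma im_Mc (α : (j : J) → ℕ → Fin (N j) → ℂ) (a : J →₀ ℕ) : (Mc α a).IsMultiplicative :=
  im_prod _ fun j _ => im_pow (im_Fc (α j)) _

lemma loc_Mc {p : ℕ} (hp : p.Prime) (α : (j : J) → ℕ → Fin (N j) → ℂ) (a : J →₀ ℕ) :
    (MP α p a : PowerSeries ℂ) * loc p (Mc α a) = 1 := by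
  have h1 : loc p (Mc α a) = ∏ j ∈ a.support, loc p (Fc (α j)) ^ a j := by
    change loch hp (Mc α a) = ∏ j ∈ a.support, (loch hp (Fc (α j))) ^ a j
    unfold Mc
    rw [map_prod]
    exact prod_congr rfl fun j _ => map_pow _ _ _
  have h2 : (MP α p a : PowerSeries ℂ) = ∏ j ∈ a.support, (LP (α j) p : PowerSeries ℂ) ^ a j := by
    unfold MP
    have h3 := map_prod (Polynomial.coeToPowerSeries.ringHom (R := ℂ))
      (fun j => LP (α j) p ^ a j) a.support
    simp only [Polynomial.coeToPowerSeries.ringHom_apply] at h3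
    rw [h3]
    refine prod_congr rfl fun j _ => ?_
    simp
  rw [h1, h2, ← prod_mul_distrib]
  refine prod_eq_one fun j _ => ?_
  rw [← mul_pow, loc_Fc hp, one_pow]

lemma ne_Mc {α : (j : J) → ℕ → Fin (N j) → ℂ} (h : MI α) {a a' : J →₀ ℕ} (haa : a ≠ a') :
    NE (Mc α a) (Mc α a') := by
  intro S
  obtain ⟨p, hp, hpS, hne⟩ := h a a' haa S
  refine ⟨p, hp, hpS, ?_⟩
  by_contra hcon
  push Not at hcon
  apply hne
  have h1 : loc p (Mc α a) = loc p (Mc α a') := by
    ext e
    unfold loc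
    rw [PowerSeries.coeff_mk, PowerSeries.coeff_mk, hcon e]
  have h2 := loc_Mc hp α a
  have h3 := loc_Mc hp α a'
  rw [← h1] at h3
  apply Polynomial.coe_injective ℂ
  calc (MP α p a : PowerSeries ℂ) = MP α p a * (MP α p a' * loc p (Mc α a)) := by rw [h3, mul_one]
    _ = MP α p a' * (MP α p a * loc p (Mc α a)) := by ring
    _ = MP α p a' := by rw [h2, mul_one]

end

end Pool.Agent.TH345.ET
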