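import Pool.Agent.TH345.ET.H

/-!
# Polynomial combinations of Dirichlet series
-/

set_option autoImplicit false

namespace Pool.Agent.TH345.ET

open Finset ArithmeticFunction Filter Topology

/-- the variable `(s - 1) / i` -/
noncomputable def kap (s : ℂ) : ℂ := -Complex.I * (s - 1)

lemma norm_kap (x : ℝ) : ‖kap (x : ℂ)‖ = |x - 1| := by
  unfold kap
  rw [norm_mul, norm_neg, Complex.norm_I, one_mul]
  have : ((x : ℂ) - 1) = ((x - 1 : ℝ) : ℂ) := by push_cast; rfl
  rw [this, Complex.norm_real, Real.norm_eq_abs]

lemma kap_tendsto : Tendsto (fun x : ℝ => ‖kap (x : ℂ)‖) atTop atTop := by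
  simp_rw [norm_kap]
  refine tendsto_abs_atTop_atTop.comp ?_
  exact tendsto_atTop_add_const_right _ _ tendsto_id

lemma coef_tendsto (m n : ℕ) (hn : n ≠ 0) :
    Tendsto (fun x : ℝ => kap (x : ℂ) ^ m * ((n : ℂ) ^ (x : ℂ) / ((n : ℂ) + 1) ^ (x : ℂ))) atTop
      (𝓝 0) := by
  have hn0 : (0 : ℝ) < n := Nat.cast_pos.2 (Nat.pos_of_ne_zero hn)
  set b : ℝ := Real.log (((n : ℝ) + 1) / n) with hb
  have hb0 : 0 < b := by
    rw [hb]
    refine Real.log_pos ?_
    rw [one_lt_div hn0]
    linarith
  have h1 := tendsto_rpow_mul_exp_neg_mul_atTop_nhds_zero (m : ℝ) b hb0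
  refine squeeze_zero_norm' ?_ h1
  filter_upwards [eventually_ge_atTop (1 : ℝ)] with x hx
  rw [norm_mul, norm_pow, norm_kap, norm_div]
  have e1 : ‖(n : ℂ) ^ (x : ℂ)‖ = (n : ℝ) ^ x := by
    rw [Complex.norm_natCast_cpow_of_pos (Nat.pos_of_ne_zero hn), Complex.ofReal_re]
  have e2 : ‖((n : ℂ) + 1) ^ (x : ℂ)‖ = ((n : ℝ) + 1) ^ x := by
    have := Complex.norm_natCast_cpow_of_pos (Nat.succ_pos n) (x : ℂ)
    push_cast at this
    rw [this, Complex.ofReal_re]
  rw [e1, e2, Real.rpow_natCast, ← Real.div_rpow hn0.le (by linarith)]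
  have e3 : ((n : ℝ) / (n + 1)) ^ x = Real.exp (-b * x) := by
    rw [Real.rpow_def_of_pos (by positivity), hb, Real.log_div hn0.ne' (by positivity),
      Real.log_div (by positivity) hn0.ne']
    congr 1
    ring
  rw [e3]
  refine mul_le_mul_of_nonneg_right ?_ (Real.exp_pos _).le
  refine pow_le_pow_left₀ (abs_nonneg _) ?_ _
  rw [abs_le]
  constructor <;> linarith

/-- the function with one value removed -/
noncomputable def rmv (n : ℕ) (f : ArithmeticFunction ℂ) : ArithmeticFunction ℂ :=
  f - (f n) • sng n

lemma rep_rmv {n : ℕ} (hn : n ≠ 0) {f : ArithmeticFunction ℂ}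
    (hf : ∀ s : ℂ, 1 < s.re → LSeriesSummable f s) :
    Rep (rmv n f) (fun s => LSeries f s + (-(f n)) * (n : ℂ) ^ (-s)) := by
  have h3 : rmv n f = f + (-(f n)) • sng n := by
    unfold rmv
    rw [neg_smul, sub_eq_add_neg]
  rw [h3]
  have h4 : Rep f (fun s => LSeries f s) := fun s hs => ⟨hf s hs, rfl⟩
  exact h4.add ((Rep.sng hn).smul _)

lemma poly_zero (M : ℕ) (G : ℕ → ArithmeticFunction ℂ)
    (hG : ∀ m < M, ∀ s : ℂ, 1 < s.re → LSeriesSummable (G m) s)
    (h0 : ∀ x : ℝ, 1 < x → ∑ m ∈ range M, kap (x : ℂ) ^ m * LSeries (G m) x = 0) :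
    ∀ m < M, G m = 0 := by
  have key : ∀ n : ℕ, ∀ m < M, G m n = 0 := by
    intro n
    induction n using Nat.strong_induction_on with
    | _ n ih =>
      rcases eq_or_ne n 0 with rfl | hn
      · intro m _
        exact (G m).map_zero
      -- the polynomial
      set P : Polynomial ℂ := ∑ m ∈ range M, Polynomial.C (G m n) * Polynomial.X ^ m with hP
      have hcoef : ∀ m < M, P.coeff m = G m n := by
        intro m hm
        rw [hP, Polynomial.finsetSum_coeff]
        rw [sum_eq_single m]
        · simp
        · intro k _ hk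
          rw [Polynomial.coeff_C_mul, Polynomial.coeff_X_pow, if_neg hk.symm, mul_zero]
        · intro h
          exact absurd (mem_range.2 hm) h
      have heval : ∀ x : ℝ, 1 < x → P.eval (kap (x : ℂ)) =
          -∑ m ∈ range M, (kap (x : ℂ) ^ m * ((n : ℂ) ^ (x : ℂ) / ((n : ℂ) + 1) ^ (x : ℂ))) *
            (((n : ℂ) + 1) ^ (x : ℂ) * LSeries (rmv n (G m)) x) := by
        intro x hx
        have hxre : 1 < ((x : ℂ)).re := by simpa using hx
        have h1 : ∀ m < M, LSeries (G m) x = G m n * (n : ℂ) ^ (-(x : ℂ)) +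
            LSeries (rmv n (G m)) x := by
          intro m hm
          have h2 := rep_rmv hn (hG m hm)
          rw [(h2 x hxre).2]
          ring
        have h5 := h0 x hx
        have h6 : ∑ m ∈ range M, kap (x : ℂ) ^ m * LSeries (G m) x =
            ∑ m ∈ range M, (kap (x : ℂ) ^ m * (G m n) * (n : ℂ) ^ (-(x : ℂ)) +
              kap (x : ℂ) ^ m * LSeries (rmv n (G m)) x) := by
          refine sum_congr rfl fun m hm => ?_
          rw [h1 m (mem_range.1 hm)]
          ring
        rw [h6, sum_add_distrib] at h5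
        have hnC : (n : ℂ) ^ (x : ℂ) ≠ 0 := by
          rw [Complex.cpow_ne_zero_iff]
          left
          exact Nat.cast_ne_zero.2 hn
        have hnC1 : ((n : ℂ) + 1) ^ (x : ℂ) ≠ 0 := by
          rw [Complex.cpow_ne_zero_iff]
          left
          exact_mod_cast Nat.succ_ne_zero n
        have h7 : P.eval (kap (x : ℂ)) = (n : ℂ) ^ (x : ℂ) *
            ∑ m ∈ range M, kap (x : ℂ) ^ m * (G m n) * (n : ℂ) ^ (-(x : ℂ)) := by
          rw [hP, Polynomial.eval_finsetSum, mul_sum]
          refine sum_congr rfl fun m _ => ?_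
          rw [Complex.cpow_neg]
          simp only [Polynomial.eval_mul, Polynomial.eval_C, Polynomial.eval_pow,
            Polynomial.eval_X]
          field_simp
        rw [h7, eq_neg_of_add_eq_zero_left h5, mul_neg, mul_sum]
        congr 1
        refine sum_congr rfl fun m _ => ?_
        field_simp
      have hlim : Tendsto (fun x : ℝ => P.eval (kap (x : ℂ))) atTop (𝓝 0) := by
        have h1 : Tendsto (fun x : ℝ => -∑ m ∈ range M,
            (kap (x : ℂ) ^ m * ((n : ℂ) ^ (x : ℂ) / ((n : ℂ) + 1) ^ (x : ℂ))) *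
            (((n : ℂ) + 1) ^ (x : ℂ) * LSeries (rmv n (G m)) x)) atTop (𝓝 0) := by
          rw [← neg_zero]
          refine Tendsto.neg ?_
          rw [← sum_const_zero (s := range M)]
          refine tendsto_finsetSum _ fun m hm => ?_
          have h2 : ∀ k ≤ n, (rmv n (G m)) k = 0 := by
            intro k hk
            rcases eq_or_ne k 0 with rfl | hk0
            · exact (rmv n (G m)).map_zero
            change G m k - (G m n) • sng n k = 0
            rw [sng_apply n hk0]
            rcases hk.lt_or_eq with h | h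
            · rw [ih k h m (mem_range.1 hm), if_neg h.ne]
              simp
            · subst h
              rw [if_pos rfl]
              simp
          have h3 : LSeries.abscissaOfAbsConv (rmv n (G m)) < ⊤ := by
            have h4 : LSeriesSummable (rmv n (G m)) 2 := by
              exact (rep_rmv hn (hG m (mem_range.1 hm)) 2 (by norm_num)).1
            refine h4.abscissaOfAbsConv_le.trans_lt ?_
            exact EReal.coe_lt_top _
          have h4 := LSeries.tendsto_cpow_mul_atTop h2 h3
          have h5 := (coef_tendsto m n hn).mul h4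
          rw [zero_mul] at h5
          exact h5
        refine h1.congr' ?_
        filter_upwards [eventually_gt_atTop (1 : ℝ)] with x hx
        exact (heval x hx).symm
      have hP0 : P = 0 := by
        by_contra hne
        rcases lt_or_ge 0 P.degree with hd | hd
        · have h1 := P.tendsto_norm_atTop hd kap_tendsto
          have h2 := hlim.norm
          rw [norm_zero] at h2
          exact not_tendsto_nhds_of_tendsto_atTop h1 0 h2
        · have h1 := Polynomial.eq_C_of_degree_le_zero hd
          rw [h1] at hlim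
          simp only [Polynomial.eval_C] at hlim
          have h2 := tendsto_nhds_unique hlim tendsto_const_nhds
          apply hne
          rw [h1, ← h2]
          simp
      intro m hm
      rw [← hcoef m hm, hP0, Polynomial.coeff_zero]
  intro m hm
  ext n
  rw [key n m hm]
  rfl

end Pool.Agent.TH345.ET
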