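import Pool.Agent.TH345.ET.E
import Pool.Agent.TH345.ET.I
import Pool.Agent.TH339.MP.P10

/-!
# Functions with locally bounded logarithmic means
-/

set_option autoImplicit false

namespace Pool.Agent.TH345.ET

open Complex MeasureTheory Filter Topology
open Pool.Agent.TH339.MP (FF tm wt PP summable_wt norm_tm hardy_lint wt_nonneg continuous_FF)
open scoped ENNReal

/-- analytic in `Re s > 1`, bounded to the right of every line, with locally bounded means of the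
positive part of the logarithm -/
structure Tame (f : ℂ → ℂ) : Prop where
  diff : DifferentiableOn ℂ f {s | 1 < s.re}
  bdd : ∀ σ : ℝ, 1 < σ → ∃ B : ℝ, ∀ s : ℂ, σ ≤ s.re → ‖f s‖ ≤ B
  log : ∃ C : ℝ≥0∞, C ≠ ⊤ ∧ ∀ σ : ℝ, 1 < σ → ∀ t : ℝ,
    ∫⁻ u in Set.Icc t (t + 1), ENNReal.ofReal (lm 1 (f ((σ : ℂ) + (u : ℂ) * I))) ≤ C

lemma meas_line {f : ℂ → ℂ} (hf : DifferentiableOn ℂ f {s | 1 < s.re}) {σ : ℝ} (hσ : 1 < σ) :
    Measurable fun u : ℝ => ENNReal.ofReal (lm 1 (f ((σ : ℂ) + (u : ℂ) * I))) := by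
  refine ENNReal.measurable_ofReal.comp (Continuous.measurable ?_)
  refine (continuous_lm one_pos).comp ?_
  refine hf.continuousOn.comp_continuous (by fun_prop) fun x => ?_
  have h1 : ((σ : ℂ) + (x : ℂ) * I).re = σ := re_line _ _
  exact hσ.trans_le h1.ge

lemma lm_mul (z w : ℂ) : lm 1 (z * w) ≤ lm 1 z + lm 1 w := by
  unfold lm
  rw [← Real.log_mul (by positivity) (by positivity)]
  refine Real.log_le_log (by positivity) (max_le ?_ ?_)
  · rw [norm_mul]
    exact mul_le_mul (le_max_left _ _) (le_max_left _ _) (norm_nonneg _) (by positivity)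
  · exact one_le_mul_of_one_le_of_one_le (le_max_right _ _) (le_max_right _ _)

lemma lm_add (z w : ℂ) : lm 1 (z + w) ≤ lm 1 z + lm 1 w + Real.log 2 := by
  unfold lm
  rw [← Real.log_mul (by positivity) (by positivity), ← Real.log_mul (by positivity) (by positivity)]
  refine Real.log_le_log (by positivity) (max_le ?_ ?_)
  · have h1 := norm_add_le z w
    have h2 : ‖z‖ ≤ max ‖z‖ 1 * max ‖w‖ 1 := by
      calc ‖z‖ ≤ max ‖z‖ 1 := le_max_left _ _
        _ ≤ max ‖z‖ 1 * max ‖w‖ 1 := le_mul_of_one_le_right (by positivity) (le_max_right _ _)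
    have h3 : ‖w‖ ≤ max ‖z‖ 1 * max ‖w‖ 1 := by
      calc ‖w‖ ≤ max ‖w‖ 1 := le_max_left _ _
        _ ≤ max ‖z‖ 1 * max ‖w‖ 1 := le_mul_of_one_le_left (by positivity) (le_max_right _ _)
    linarith
  · have : 1 ≤ max ‖z‖ 1 * max ‖w‖ 1 :=
      one_le_mul_of_one_le_of_one_le (le_max_right _ _) (le_max_right _ _)
    linarith

lemma Tame.of_bdd {f : ℂ → ℂ} (hd : DifferentiableOn ℂ f {s | 1 < s.re}) (B : ℝ)
    (h : ∀ s : ℂ, 1 < s.re → ‖f s‖ ≤ B) : Tame f := by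
  refine ⟨hd, fun σ hσ => ⟨B, fun s hs => h s (hσ.trans_le hs)⟩,
    ⟨ENNReal.ofReal (Real.log (max B 1)), ENNReal.ofReal_ne_top, fun σ hσ t => ?_⟩⟩
  have h1 : ∫⁻ u in Set.Icc t (t + 1), ENNReal.ofReal (lm 1 (f ((σ : ℂ) + (u : ℂ) * I))) ≤
      ∫⁻ u in Set.Icc t (t + 1), ENNReal.ofReal (Real.log (max B 1)) := by
    refine lintegral_mono fun u => ENNReal.ofReal_le_ofReal ?_
    refine Real.log_le_log (by positivity) (max_le_max_right _ (h _ ?_))
    rw [re_line]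
    exact hσ
  refine h1.trans ?_
  rw [setLIntegral_const, Real.volume_Icc]
  simp

lemma Tame.mul {f g : ℂ → ℂ} (hf : Tame f) (hg : Tame g) : Tame (fun s => f s * g s) := by
  obtain ⟨C₁, h1, h1'⟩ := hf.log
  obtain ⟨C₂, h2, h2'⟩ := hg.log
  refine ⟨hf.diff.mul hg.diff, fun σ hσ => ?_, ⟨C₁ + C₂, ENNReal.add_ne_top.2 ⟨h1, h2⟩,
    fun σ hσ t => ?_⟩⟩
  · obtain ⟨B₁, hB₁⟩ := hf.bdd σ hσ
    obtain ⟨B₂, hB₂⟩ := hg.bdd σ hσ
    refine ⟨B₁ * B₂, fun s hs => ?_⟩
    rw [norm_mul]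
    exact mul_le_mul (hB₁ s hs) (hB₂ s hs) (norm_nonneg _) ((norm_nonneg _).trans (hB₁ s hs))
  · refine le_trans ?_ (add_le_add (h1' σ hσ t) (h2' σ hσ t))
    rw [← lintegral_add_left (meas_line hf.diff hσ)]
    refine lintegral_mono fun u => ?_
    rw [← ENNReal.ofReal_add (lm_one_nonneg _) (lm_one_nonneg _)]
    exact ENNReal.ofReal_le_ofReal (lm_mul _ _)

lemma Tame.add {f g : ℂ → ℂ} (hf : Tame f) (hg : Tame g) : Tame (fun s => f s + g s) := by
  obtain ⟨C₁, h1, h1'⟩ := hf.log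
  obtain ⟨C₂, h2, h2'⟩ := hg.log
  refine ⟨hf.diff.add hg.diff, fun σ hσ => ?_, ⟨C₁ + C₂ + ENNReal.ofReal (Real.log 2),
    ENNReal.add_ne_top.2 ⟨ENNReal.add_ne_top.2 ⟨h1, h2⟩, ENNReal.ofReal_ne_top⟩,
    fun σ hσ t => ?_⟩⟩
  · obtain ⟨B₁, hB₁⟩ := hf.bdd σ hσ
    obtain ⟨B₂, hB₂⟩ := hg.bdd σ hσ
    exact ⟨B₁ + B₂, fun s hs => (norm_add_le _ _).trans (add_le_add (hB₁ s hs) (hB₂ s hs))⟩
  · have h3 : ENNReal.ofReal (Real.log 2) =
        ∫⁻ _u in Set.Icc t (t + 1), ENNReal.ofReal (Real.log 2) := by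
      rw [setLIntegral_const, Real.volume_Icc]
      simp
    refine le_trans ?_ (add_le_add (add_le_add (h1' σ hσ t) (h2' σ hσ t)) h3.ge)
    have hm : Measurable fun u : ℝ => ENNReal.ofReal (lm 1 (f ((σ : ℂ) + (u : ℂ) * I))) +
        ENNReal.ofReal (lm 1 (g ((σ : ℂ) + (u : ℂ) * I))) :=
      (meas_line hf.diff hσ).add (meas_line hg.diff hσ)
    rw [← lintegral_add_left (meas_line hf.diff hσ), ← lintegral_add_left hm]
    refine lintegral_mono fun u => ?_
    have hlog : 0 ≤ Real.log 2 := Real.log_nonneg (by norm_num)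
    rw [← ENNReal.ofReal_add (lm_one_nonneg _) (lm_one_nonneg _),
      ← ENNReal.ofReal_add (add_nonneg (lm_one_nonneg _) (lm_one_nonneg _)) hlog]
    exact ENNReal.ofReal_le_ofReal (lm_add _ _)

lemma Tame.const (c : ℂ) : Tame (fun _ => c) :=
  Tame.of_bdd (differentiableOn_const c) ‖c‖ fun _ _ => le_rfl

lemma Tame.sum {ι : Type*} (t : Finset ι) {f : ι → ℂ → ℂ} (h : ∀ i ∈ t, Tame (f i)) :
    Tame (fun s => ∑ i ∈ t, f i s) := by
  classical
  induction t using Finset.induction with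
  | empty => simpa using Tame.const 0
  | insert a t ha ih =>
    simp_rw [Finset.sum_insert ha]
    exact (h a (Finset.mem_insert_self a t)).add
      (ih fun i hi => h i (Finset.mem_insert_of_mem hi))

lemma Tame.prod {ι : Type*} (t : Finset ι) {f : ι → ℂ → ℂ} (h : ∀ i ∈ t, Tame (f i)) :
    Tame (fun s => ∏ i ∈ t, f i s) := by
  classical
  induction t using Finset.induction with
  | empty => simpa using Tame.const 1
  | insert a t ha ih =>
    simp_rw [Finset.prod_insert ha]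
    exact (h a (Finset.mem_insert_self a t)).mul
      (ih fun i hi => h i (Finset.mem_insert_of_mem hi))

lemma Tame.pow {f : ℂ → ℂ} (h : Tame f) (n : ℕ) : Tame (fun s => f s ^ n) := by
  induction n with
  | zero => simpa using Tame.const 1
  | succ n ih =>
    simp_rw [pow_succ]
    exact ih.mul h

section
variable {b : PP → ℂ} {M : ℝ}

lemma wt_mono {σ σ' : ℝ} (h : σ ≤ σ') (x : PP) : wt σ' x ≤ wt σ x := by
  unfold wt
  have h1 : (1 : ℝ) ≤ ((x.1 : ℕ) : ℝ) := by exact_mod_cast x.1.2.one_lt.le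
  refine pow_le_pow_left₀ (by positivity) ?_ _
  exact Real.rpow_le_rpow_of_exponent_le h1 (neg_le_neg h)

lemma norm_tm_le (hb : ∀ x, ‖b x‖ ≤ M / (x.2 + 1 : ℕ)) {σ : ℝ} {s : ℂ} (hs : σ ≤ s.re) (x : PP) :
    ‖tm b s x‖ ≤ M * (wt σ x / (x.2 + 1 : ℕ)) := by
  rw [norm_tm]
  have h1 := mul_le_mul (hb x) (wt_mono hs x) (wt_nonneg _ x)
    ((norm_nonneg _).trans (hb x))
  refine h1.trans (le_of_eq ?_)
  ring

lemma diff_FF (hb : ∀ x, ‖b x‖ ≤ M / (x.2 + 1 : ℕ)) :
    DifferentiableOn ℂ (FF b) {s | 1 < s.re} := by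
  intro s hs
  have hs' : 1 < s.re := hs
  obtain ⟨σ, h1, h2⟩ := exists_between hs'
  have h3 : DifferentiableOn ℂ (FF b) {z : ℂ | σ < z.re} := by
    unfold FF
    refine differentiableOn_tsum_of_summable_norm ((summable_wt h1).mul_left M) ?_ ?_ ?_
    · intro x
      unfold tm
      intro z _
      refine DifferentiableAt.differentiableWithinAt ?_
      have hne : ((x.1 : ℕ) : ℂ) ≠ 0 := by exact_mod_cast x.1.2.ne_zero
      have h4 : DifferentiableAt ℂ (fun z : ℂ => ((x.1 : ℕ) : ℂ) ^ (-z)) z :=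
        DifferentiableAt.const_cpow differentiableAt_id.neg (Or.inl hne)
      exact (h4.pow _).const_mul _
    · exact isOpen_lt continuous_const Complex.continuous_re
    · intro x z hz
      exact norm_tm_le hb (le_of_lt hz) x
  exact ((h3 s h2).differentiableAt ((isOpen_lt continuous_const
    Complex.continuous_re).mem_nhds h2)).differentiableWithinAt

lemma lm_le_rpow {r : ℝ} (hr : 0 < r) (w : ℂ) : lm 1 w ≤ ‖w‖ ^ r / r := by
  unfold lm
  rcases le_total ‖w‖ 1 with h | h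
  · rw [max_eq_right h, Real.log_one]
    positivity
  · rw [max_eq_left h]
    exact Real.log_le_rpow_div (norm_nonneg _) hr

lemma Tame.exp_FF (hb : ∀ x, ‖b x‖ ≤ M / (x.2 + 1 : ℕ)) :
    Tame (fun s => Complex.exp (FF b s)) := by
  have hM : 0 ≤ M := by
    have h1 := (norm_nonneg _).trans (hb (⟨2, Nat.prime_two⟩, 0))
    simpa using h1
  set r : ℝ := 1 / (2 * (M + 1)) with hr
  have hr0 : 0 < r := by positivity
  have hrM : |r| * M < 1 := by
    rw [abs_of_pos hr0, hr, div_mul_eq_mul_div, one_mul, div_lt_one (by positivity)]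
    linarith
  refine ⟨(diff_FF hb).cexp, fun σ hσ => ?_, ⟨ENNReal.ofReal (1 / r) *
    ENNReal.ofReal (36 / (1 - |r| * M)), ENNReal.mul_ne_top ENNReal.ofReal_ne_top
      ENNReal.ofReal_ne_top, fun σ hσ t => ?_⟩⟩
  · refine ⟨Real.exp (∑' x, M * (wt σ x / (x.2 + 1 : ℕ))), fun s hs => ?_⟩
    rw [Complex.norm_exp]
    refine Real.exp_le_exp.2 ((Complex.re_le_norm _).trans ?_)
    exact tsum_of_norm_bounded ((summable_wt hσ).mul_left M).hasSum fun x => norm_tm_le hb hs x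
  · refine le_trans ?_ (mul_le_mul_right (hardy_lint b hb hσ t hrM) _)
    rw [← lintegral_const_mul' _ _ ENNReal.ofReal_ne_top]
    refine lintegral_mono fun u => ?_
    rw [← ENNReal.ofReal_mul (by positivity)]
    refine ENNReal.ofReal_le_ofReal ((lm_le_rpow hr0 _).trans (le_of_eq ?_))
    ring

end

/-- The uniqueness theorem for tame functions. -/
lemma Tame.unique {f : ℂ → ℂ} (hf : Tame f)
    (hE : ¬ ∀ᵐ τ : ℝ, ¬ Tendsto (fun σ : ℝ => f ((σ : ℂ) + (τ : ℂ) * I)) (𝓝[>] 1) (𝓝 0)) :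
    ∀ s : ℂ, 1 < s.re → f s = 0 := by
  obtain ⟨C, h1, h2⟩ := hf.log
  exact ET.unique hf.diff hf.bdd h1 h2 hE

end Pool.Agent.TH345.ET
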