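import Pool.Agent.TH345.ET.K

/-!
# Monomials in `τ`, `p^{iτ}` and the values of the Euler products
-/

set_option autoImplicit false

namespace Pool.Agent.TH345.ET

open Finset

variable {J : Type*}

/-- the variables -/
abbrev VV (J : Type*) : Type _ := Unit ⊕ (Nat.Primes ⊕ J)

/-- exponent of `τ` -/
noncomputable def dT (d : VV J →₀ ℕ) : ℕ := d (Sum.inl ())

/-- the other exponents -/
noncomputable def dR (d : VV J →₀ ℕ) : Nat.Primes ⊕ J →₀ ℕ :=
  d.comapDomain Sum.inr Sum.inr_injective.injOn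

/-- exponents of the `p^{iτ}` -/
noncomputable def dP (d : VV J →₀ ℕ) : Nat.Primes →₀ ℕ :=
  (dR d).comapDomain Sum.inl Sum.inl_injective.injOn

/-- exponents of the L-values -/
noncomputable def dJ (d : VV J →₀ ℕ) : J →₀ ℕ :=
  (dR d).comapDomain Sum.inr Sum.inr_injective.injOn

lemma d_ext {d d' : VV J →₀ ℕ} (h1 : dT d = dT d') (h2 : dP d = dP d') (h3 : dJ d = dJ d') :
    d = d' := by
  ext v
  rcases v with v | v | v
  · exact h1
  · have := DFunLike.congr_fun h2 v
    simpa [dP, dR] using this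
  · have := DFunLike.congr_fun h3 v
    simpa [dJ, dR] using this

lemma d_split (d : VV J →₀ ℕ) (x : VV J → ℂ) :
    ∏ v ∈ d.support, x v ^ d v = x (Sum.inl ()) ^ dT d *
      ((∏ p ∈ (dP d).support, x (Sum.inr (Sum.inl p)) ^ dP d p) *
        ∏ j ∈ (dJ d).support, x (Sum.inr (Sum.inr j)) ^ dJ d j) := by
  have h1 : ∏ v ∈ d.support, x v ^ d v = d.prod fun v e => x v ^ e := rfl
  have h2 : d.prod (fun v e => x v ^ e) =
      (d.comapDomain Sum.inl Sum.inl_injective.injOn).prod ((fun v e => x v ^ e) ∘ Sum.inl) *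
        (dR d).prod ((fun v e => x v ^ e) ∘ Sum.inr) := by
    conv_lhs => rw [← Finsupp.comapDomain_sumElim_comapDomain d]
    rw [Finsupp.prod_sumElim]
    rfl
  have h3 : (dR d).prod ((fun v e => x v ^ e) ∘ Sum.inr) =
      (dP d).prod (((fun v e => x v ^ e) ∘ Sum.inr) ∘ Sum.inl) *
        (dJ d).prod (((fun v e => x v ^ e) ∘ Sum.inr) ∘ Sum.inr) := by
    conv_lhs => rw [← Finsupp.comapDomain_sumElim_comapDomain (dR d)]
    rw [Finsupp.prod_sumElim]
    rfl
  rw [h1, h2, h3, Finsupp.prod_fintype _ _ (fun i => by simp)]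
  simp only [univ_unique, PUnit.default_eq_unit, prod_singleton]
  rfl

/-- the integer `∏ p^{d_p}` -/
noncomputable def nN (d : VV J →₀ ℕ) : ℕ := ∏ p ∈ (dP d).support, (p : ℕ) ^ dP d p

lemma nN_pos (d : VV J →₀ ℕ) : 0 < nN d := prod_pos fun p _ => pow_pos p.2.pos _

lemma nN_factorization (d : VV J →₀ ℕ) (q : Nat.Primes) : (nN d).factorization q = dP d q := by
  unfold nN
  rw [Nat.factorization_prod (fun p _ => pow_ne_zero _ p.2.ne_zero), Finsupp.finsetSum_apply]
  rw [sum_eq_single q]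
  · rw [Nat.Prime.factorization_pow q.2, Finsupp.single_eq_same]
  · intro p _ hpq
    rw [Nat.Prime.factorization_pow p.2, Finsupp.single_eq_of_ne]
    intro h
    exact hpq (Subtype.ext h.symm)
  · intro h
    rw [Finsupp.notMem_support_iff.1 h]
    simp

lemma nN_inj {d d' : VV J →₀ ℕ} (h : nN d = nN d') : dP d = dP d' := by
  ext q
  rw [← nN_factorization, ← nN_factorization, h]

lemma pow_cpow (n e : ℕ) (z : ℂ) : ((n ^ e : ℕ) : ℂ) ^ z = ((n : ℂ) ^ z) ^ e := by
  induction e with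
  | zero => simp
  | succ e ih =>
    rw [pow_succ, pow_succ, Nat.cast_mul, Complex.natCast_mul_natCast_cpow, ih]

lemma prod_cpow {ι : Type*} (t : Finset ι) (n : ι → ℕ) (z : ℂ) :
    ((∏ i ∈ t, n i : ℕ) : ℂ) ^ z = ∏ i ∈ t, (n i : ℂ) ^ z := by
  classical
  induction t using Finset.induction with
  | empty => simp
  | insert a t ha ih =>
    rw [prod_insert ha, prod_insert ha, Nat.cast_mul, Complex.natCast_mul_natCast_cpow, ih]

lemma nN_cpow (d : VV J →₀ ℕ) (z : ℂ) :
    (nN d : ℂ) ^ z = ∏ p ∈ (dP d).support, (((p : ℕ) : ℂ) ^ z) ^ dP d p := by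
  unfold nN
  rw [prod_cpow]
  exact prod_congr rfl fun p _ => pow_cpow _ _ _

section
variable (T : Finset (VV J →₀ ℕ))

/-- the product of the integers -/
noncomputable def MM : ℕ := ∏ d ∈ T, nN d

open Classical in
/-- the complementary integer -/
noncomputable def cN (d : VV J →₀ ℕ) : ℕ := ∏ d' ∈ T.erase d, nN d'

lemma cN_pos (d : VV J →₀ ℕ) : 0 < cN T d := prod_pos fun _ _ => nN_pos _

lemma MM_pos : 0 < MM T := prod_pos fun _ _ => nN_pos _

lemma cN_mul {d : VV J →₀ ℕ} (hd : d ∈ T) : nN d * cN T d = MM T := by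
  classical
  unfold cN MM
  exact mul_prod_erase T nN hd

lemma cN_inj {d d' : VV J →₀ ℕ} (hd : d ∈ T) (hd' : d' ∈ T) (h : cN T d = cN T d') :
    dP d = dP d' := by
  apply nN_inj
  have h1 := cN_mul T hd
  have h2 := cN_mul T hd'
  rw [← h2, h] at h1
  exact Nat.eq_of_mul_eq_mul_right (cN_pos T d') h1

lemma cN_cpow {d : VV J →₀ ℕ} (hd : d ∈ T) (z : ℂ) :
    (cN T d : ℂ) ^ (-z) = (MM T : ℂ) ^ (-z) * (nN d : ℂ) ^ z := by
  rw [← cN_mul T hd, Nat.cast_mul, Complex.natCast_mul_natCast_cpow]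
  have h1 : (nN d : ℂ) ^ (-z) * (nN d : ℂ) ^ z = 1 := by
    rw [← Complex.cpow_add _ _ (Nat.cast_ne_zero.2 (nN_pos d).ne'), neg_add_cancel,
      Complex.cpow_zero]
  linear_combination -(cN T d : ℂ) ^ (-z) * h1

end

end Pool.Agent.TH345.ET
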