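import Pool.Agent.TH345.ET.L

/-!
# The auxiliary function of a polynomial
-/

set_option autoImplicit false

namespace Pool.Agent.TH345.ET

open Finset Filter Topology MeasureTheory
open Pool.Agent.TH339.MP (FF bα norm_bα)

section
variable {J : Type*} {N : J → ℕ}

/-- the `j`-th Euler product -/
noncomputable def EL (α : (j : J) → ℕ → Fin (N j) → ℂ) (j : J) (s : ℂ) : ℂ :=
  Complex.exp (FF (bα (α j) ∅) s)

/-- the terms of the auxiliary function, before normalisation -/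
noncomputable def tr (α : (j : J) → ℕ → Fin (N j) → ℂ) (T : Finset (VV J →₀ ℕ))
    (d : VV J →₀ ℕ) (s : ℂ) : ℂ :=
  kap s ^ dT d * ((cN T d : ℂ) ^ (-(s - 1)) * ∏ j ∈ (dJ d).support, EL α j s ^ dJ d j)

/-- the auxiliary function -/
noncomputable def ax (α : (j : J) → ℕ → Fin (N j) → ℂ) (T : Finset (VV J →₀ ℕ))
    (c : (VV J →₀ ℕ) → ℂ) (D : ℕ) (s : ℂ) : ℂ :=
  ∑ d ∈ T, c d * ((kap s / (s + 1)) ^ dT d * (1 / (s + 1)) ^ (D - dT d) *
    ((cN T d : ℂ) ^ (-(s - 1)) * ∏ j ∈ (dJ d).support, EL α j s ^ dJ d j))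

lemma ne_zero_of_re {s : ℂ} (hs : 1 < s.re) : s + 1 ≠ 0 := by
  intro h
  have := congrArg Complex.re h
  simp at this
  linarith

lemma ax_eq (α : (j : J) → ℕ → Fin (N j) → ℂ) (T : Finset (VV J →₀ ℕ))
    (c : (VV J →₀ ℕ) → ℂ) {D : ℕ} (hD : ∀ d ∈ T, dT d ≤ D) {s : ℂ} (hs : s + 1 ≠ 0) :
    ax α T c D s = (∑ d ∈ T, c d * tr α T d s) / (s + 1) ^ D := by
  unfold ax tr
  rw [sum_div]
  refine sum_congr rfl fun d hd => ?_
  have h1 : (s + 1) ^ D = (s + 1) ^ dT d * (s + 1) ^ (D - dT d) := by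
    rw [← pow_add, Nat.add_sub_cancel' (hD d hd)]
  rw [h1, div_pow, div_pow, one_pow]
  field_simp

lemma EL_tame {α : (j : J) → ℕ → Fin (N j) → ℂ} (hα : ∀ j, ∀ p : ℕ, p.Prime → ∀ i, ‖α j p i‖ ≤ 1)
    (j : J) : Tame (EL α j) :=
  Tame.exp_FF (norm_bα (S := ∅) fun p hp _ i => hα j p hp i)

lemma ax_tame {α : (j : J) → ℕ → Fin (N j) → ℂ} (hα : ∀ j, ∀ p : ℕ, p.Prime → ∀ i, ‖α j p i‖ ≤ 1)
    (T : Finset (VV J →₀ ℕ)) (c : (VV J →₀ ℕ) → ℂ) (D : ℕ) : Tame (ax α T c D) := by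
  unfold ax
  have hle : ∀ s : ℂ, 1 < s.re → 1 ≤ ‖s + 1‖ := by
    intro s hs
    have := Complex.re_le_norm (s + 1)
    rw [Complex.add_re, Complex.one_re] at this
    linarith
  have hdiff : ∀ s : ℂ, 1 < s.re → DifferentiableAt ℂ (fun s : ℂ => (s + 1)) s := fun s _ => by
    fun_prop
  have h1 : Tame fun s : ℂ => kap s / (s + 1) := by
    refine Tame.of_bdd ?_ 1 ?_
    · intro s hs
      refine DifferentiableAt.differentiableWithinAt ?_
      unfold kap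
      exact DifferentiableAt.div (by fun_prop) (by fun_prop) (ne_zero_of_re hs)
    · intro s hs
      have h2 := hle s hs
      rw [norm_div, div_le_one (by linarith)]
      unfold kap
      rw [norm_mul, norm_neg, Complex.norm_I, one_mul, ← sq_le_sq₀ (norm_nonneg _) (norm_nonneg _),
        ← Complex.normSq_eq_norm_sq, ← Complex.normSq_eq_norm_sq, Complex.normSq_apply,
        Complex.normSq_apply]
      simp only [Complex.sub_re, Complex.one_re, Complex.sub_im, Complex.one_im, Complex.add_re,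
        Complex.add_im]
      nlinarith
  have h2 : Tame fun s : ℂ => 1 / (s + 1) := by
    refine Tame.of_bdd ?_ 1 ?_
    · intro s hs
      refine DifferentiableAt.differentiableWithinAt ?_
      exact DifferentiableAt.div (by fun_prop) (by fun_prop) (ne_zero_of_re hs)
    · intro s hs
      have h3 := hle s hs
      rw [norm_div, norm_one, div_le_one (by linarith)]
      exact h3
  refine Tame.sum _ fun d _ => (Tame.const _).mul (((h1.pow _).mul (h2.pow _)).mul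
    (Tame.mul ?_ (Tame.prod _ fun j _ => (EL_tame hα j).pow _)))
  refine Tame.of_bdd ?_ 1 ?_
  · intro s _
    refine DifferentiableAt.differentiableWithinAt ?_
    exact DifferentiableAt.const_cpow (by fun_prop) (Or.inl (Nat.cast_ne_zero.2 (cN_pos T d).ne'))
  · intro s hs
    rw [Complex.norm_natCast_cpow_of_pos (cN_pos T d)]
    refine Real.rpow_le_one_of_one_le_of_nonpos ?_ ?_
    · exact_mod_cast cN_pos T d
    · rw [Complex.neg_re, Complex.sub_re, Complex.one_re]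
      linarith

/-- the value on the edge -/
lemma ax_tendsto {α : (j : J) → ℕ → Fin (N j) → ℂ} (T : Finset (VV J →₀ ℕ))
    (c : (VV J →₀ ℕ) → ℂ) {D : ℕ} (hD : ∀ d ∈ T, dT d ≤ D) {τ : ℝ} {l : J → ℂ}
    (hl : ∀ j, Tendsto (fun σ : ℝ => EL α j ((σ : ℂ) + (τ : ℂ) * Complex.I)) (𝓝[>] 1) (𝓝 (l j)))
    (h0 : ∑ d ∈ T, c d * ∏ v ∈ d.support,
      (Sum.elim (fun _ => (τ : ℂ)) (Sum.elim (fun p : Nat.Primes => ((p : ℕ) : ℂ) ^ ((τ : ℂ) * Complex.I)) l) :
        VV J → ℂ) v ^ d v = 0) :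
    Tendsto (fun σ : ℝ => ax α T c D ((σ : ℂ) + (τ : ℂ) * Complex.I)) (𝓝[>] 1) (𝓝 0) := by
  have hs : Tendsto (fun σ : ℝ => (σ : ℂ) + (τ : ℂ) * Complex.I) (𝓝[>] 1)
      (𝓝 (((1 : ℝ) : ℂ) + (τ : ℂ) * Complex.I)) := by
    have : Continuous fun σ : ℝ => (σ : ℂ) + (τ : ℂ) * Complex.I := by fun_prop
    exact (this.tendsto 1).mono_left nhdsWithin_le_nhds
  rw [Complex.ofReal_one] at hs
  have hne : (1 + (τ : ℂ) * Complex.I) + 1 ≠ 0 := by
    intro h
    have := congrArg Complex.re h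
    simp at this
  have hk : Tendsto (fun σ : ℝ => kap ((σ : ℂ) + (τ : ℂ) * Complex.I)) (𝓝[>] 1) (𝓝 (τ : ℂ)) := by
    have h1 : Continuous kap := by unfold kap; fun_prop
    have h2 := (h1.tendsto _).comp hs
    have h3 : kap (1 + (τ : ℂ) * Complex.I) = τ := by
      unfold kap
      linear_combination (-(τ : ℂ)) * Complex.I_mul_I
    rw [h3] at h2
    exact h2
  have h1 : Tendsto (fun σ : ℝ => ∑ d ∈ T, c d * tr α T d ((σ : ℂ) + (τ : ℂ) * Complex.I)) (𝓝[>] 1)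
      (𝓝 (∑ d ∈ T, c d * ((τ : ℂ) ^ dT d * ((cN T d : ℂ) ^ (-((τ : ℂ) * Complex.I)) *
        ∏ j ∈ (dJ d).support, l j ^ dJ d j)))) := by
    refine tendsto_finsetSum _ fun d _ => Tendsto.const_mul _ ?_
    refine (hk.pow _).mul (Tendsto.mul ?_ (tendsto_finsetProd _ fun j _ => (hl j).pow _))
    have h2 : Continuous fun s : ℂ => (cN T d : ℂ) ^ (-(s - 1)) :=
      Continuous.const_cpow (by fun_prop) (Or.inl (Nat.cast_ne_zero.2 (cN_pos T d).ne'))
    have h3 := (h2.tendsto _).comp hs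
    have h4 : -((1 + (τ : ℂ) * Complex.I) - 1) = -((τ : ℂ) * Complex.I) := by ring
    rw [h4] at h3
    exact h3
  have h2 : ∑ d ∈ T, c d * ((τ : ℂ) ^ dT d * ((cN T d : ℂ) ^ (-((τ : ℂ) * Complex.I)) *
        ∏ j ∈ (dJ d).support, l j ^ dJ d j)) = 0 := by
    have h3 : ∑ d ∈ T, c d * ((τ : ℂ) ^ dT d * ((cN T d : ℂ) ^ (-((τ : ℂ) * Complex.I)) *
        ∏ j ∈ (dJ d).support, l j ^ dJ d j)) = (MM T : ℂ) ^ (-((τ : ℂ) * Complex.I)) *
        ∑ d ∈ T, c d * ∏ v ∈ d.support,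
      (Sum.elim (fun _ => (τ : ℂ)) (Sum.elim (fun p : Nat.Primes => ((p : ℕ) : ℂ) ^ ((τ : ℂ) * Complex.I)) l) :
        VV J → ℂ) v ^ d v := by
      rw [mul_sum]
      refine sum_congr rfl fun d hd => ?_
      rw [d_split, cN_cpow T hd, nN_cpow]
      simp only [Sum.elim_inl, Sum.elim_inr]
      ring
    rw [h3, h0, mul_zero]
  rw [h2] at h1
  have h3 : Tendsto (fun σ : ℝ => (∑ d ∈ T, c d * tr α T d ((σ : ℂ) + (τ : ℂ) * Complex.I)) /
      (((σ : ℂ) + (τ : ℂ) * Complex.I) + 1) ^ D) (𝓝[>] 1) (𝓝 0) := by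
    have h4 := h1.div ((hs.add_const 1).pow D) (pow_ne_zero D hne)
    rw [zero_div] at h4
    exact h4
  refine h3.congr' ?_
  filter_upwards [self_mem_nhdsWithin] with σ hσ
  have hσ' : (1 : ℝ) < σ := hσ
  rw [ax_eq α T c hD]
  refine ne_zero_of_re ?_
  rw [re_line]
  exact hσ'

end

end Pool.Agent.TH345.ET
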