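import Pool.Agent.TH345.ET.M

/-!
# The auxiliary function does not vanish
-/

set_option autoImplicit false

namespace Pool.Agent.TH345.ET

open Finset Filter Topology MeasureTheory ArithmeticFunction

section
variable {J : Type*} {N : J → ℕ}

lemma rep_Mc {α : (j : J) → ℕ → Fin (N j) → ℂ} (hα : ∀ j, ∀ p : ℕ, p.Prime → ∀ i, ‖α j p i‖ ≤ 1)
    (a : J →₀ ℕ) : Rep (Mc α a) (fun s => ∏ j ∈ a.support, EL α j s ^ a j) := by
  unfold Mc
  exact Rep.prod _ fun j _ => (rep_Fc (hα j)).pow _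

theorem nonvanishing {α : (j : J) → ℕ → Fin (N j) → ℂ}
    (hα : ∀ j, ∀ p : ℕ, p.Prime → ∀ i, ‖α j p i‖ ≤ 1) (hMI : MI α)
    (T : Finset (VV J →₀ ℕ)) (c : (VV J →₀ ℕ) → ℂ)
    (h0 : ∀ s : ℂ, 1 < s.re → ∑ d ∈ T, c d * tr α T d s = 0) : ∀ d ∈ T, c d = 0 := by
  classical
  set G : ℕ → ArithmeticFunction ℂ := fun m => ∑ d ∈ T.filter (fun d => dT d = m),
    (c d * (cN T d : ℂ)) • (sng (cN T d) * Mc α (dJ d)) with hG
  have hrep : ∀ m, Rep (G m) (fun s => ∑ d ∈ T.filter (fun d => dT d = m),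
      (c d * (cN T d : ℂ)) * ((cN T d : ℂ) ^ (-s) * ∏ j ∈ (dJ d).support, EL α j s ^ dJ d j)) := by
    intro m
    rw [hG]
    exact Rep.sum _ fun d _ => ((Rep.sng (cN_pos T d).ne').mul (rep_Mc hα (dJ d))).smul _
  set D : ℕ := (∑ d ∈ T, dT d) + 1 with hD
  have hDlt : ∀ d ∈ T, dT d < D := by
    intro d hd
    have := single_le_sum (f := fun d : VV J →₀ ℕ => dT d) (fun _ _ => Nat.zero_le _) hd
    omega
  have hG0 : ∀ m < D, G m = 0 := by
    refine poly_zero D G (fun m _ s hs => (hrep m s hs).1) fun x hx => ?_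
    have hxre : 1 < ((x : ℂ)).re := by simpa using hx
    rw [← h0 x hxre]
    have h1 : ∀ m ∈ range D, kap (x : ℂ) ^ m * LSeries (G m) x =
        ∑ d ∈ T.filter (fun d => dT d = m), c d * tr α T d x := by
      intro m _
      rw [(hrep m x hxre).2, mul_sum]
      refine sum_congr rfl fun d hd => ?_
      rw [mem_filter] at hd
      unfold tr
      rw [hd.2]
      have h2 : (cN T d : ℂ) ^ (-((x : ℂ) - 1)) = (cN T d : ℂ) * (cN T d : ℂ) ^ (-(x : ℂ)) := by
        have hne : (cN T d : ℂ) ≠ 0 := Nat.cast_ne_zero.2 (cN_pos T d).ne'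
        have h3 : -((x : ℂ) - 1) = 1 + (-(x : ℂ)) := by ring
        rw [h3, Complex.cpow_add _ _ hne, Complex.cpow_one]
      rw [h2]
      ring
    rw [sum_congr rfl h1]
    exact sum_fiberwise_of_maps_to (fun d hd => mem_range.2 (hDlt d hd)) _
  intro d₀ hd₀
  have h1 := hG0 (dT d₀) (hDlt d₀ hd₀)
  set T' := T.filter (fun d => dT d = dT d₀) with hT'
  have hd₀' : d₀ ∈ T' := mem_filter.2 ⟨hd₀, rfl⟩
  set Aset : Finset (J →₀ ℕ) := T'.image dJ with hA
  set Dc : (J →₀ ℕ) → ArithmeticFunction ℂ := fun a => ∑ d ∈ T'.filter (fun d => dJ d = a),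
    (c d * (cN T d : ℂ)) • sng (cN T d) with hDc
  have hDsum : ∀ (a : J →₀ ℕ) (n : ℕ), n ≠ 0 → Dc a n =
      ∑ d ∈ T'.filter (fun d => dJ d = a), (c d * (cN T d : ℂ)) * (if n = cN T d then 1 else 0) := by
    intro a n hn
    rw [hDc]
    simp only
    rw [sum_af]
    refine sum_congr rfl fun d _ => ?_
    change (c d * (cN T d : ℂ)) * sng (cN T d) n = _
    rw [sng_apply _ hn]
  have h2 : ∑ a ∈ Aset, Dc a * Mc α a = 0 := by
    rw [← h1, hG]
    simp only
    rw [← sum_fiberwise_of_maps_to (fun d hd => mem_image_of_mem dJ hd :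
      ∀ d ∈ T', dJ d ∈ Aset)]
    refine sum_congr rfl fun a _ => ?_
    rw [hDc]
    simp only
    rw [sum_mul]
    refine sum_congr rfl fun d hd => ?_
    rw [mem_filter] at hd
    rw [hd.2, smul_mul_assoc]
  have h3 := vanish (Mc α) Aset (fun a _ => im_Mc α a)
    (fun a _ a' _ haa => ne_Mc hMI haa) (MM T).primeFactors Dc ?_ h2 (dJ d₀)
    (mem_image_of_mem dJ hd₀')
  · have h4 : Dc (dJ d₀) (cN T d₀) = 0 := by rw [h3]; rfl
    rw [hDsum _ _ (cN_pos T d₀).ne'] at h4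
    rw [sum_eq_single d₀] at h4
    · rw [if_pos rfl, mul_one] at h4
      rcases mul_eq_zero.1 h4 with h5 | h5
      · exact h5
      · exact absurd h5 (Nat.cast_ne_zero.2 (cN_pos T d₀).ne')
    · intro d hd hne
      rw [mem_filter, hT', mem_filter] at hd
      rw [if_neg, mul_zero]
      intro h5
      apply hne
      exact d_ext hd.1.2 (cN_inj T hd.1.1 hd₀ h5.symm) hd.2
    · intro h
      exact (h (mem_filter.2 (And.intro hd₀' rfl))).elim
  · intro a _ n hn p hp hpn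
    rcases eq_or_ne n 0 with rfl | hn0
    · exact absurd (Dc a).map_zero hn
    rw [hDsum a n hn0] at hn
    obtain ⟨d, hd, hd1⟩ := exists_ne_zero_of_sum_ne_zero hn
    rw [mem_filter, hT', mem_filter] at hd
    have h5 : n = cN T d := by
      by_contra h
      rw [if_neg h, mul_zero] at hd1
      exact hd1 rfl
    rw [Nat.mem_primeFactors]
    refine ⟨hp, ?_, (MM_pos T).ne'⟩
    rw [← cN_mul T hd.1.1]
    exact Dvd.dvd.mul_left (h5 ▸ hpn) _

/-- **Algebraic independence on the edge.** -/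
theorem core [Countable J] {α : (j : J) → ℕ → Fin (N j) → ℂ}
    (hα : ∀ j, ∀ p : ℕ, p.Prime → ∀ i, ‖α j p i‖ ≤ 1) (hMI : MI α)
    {l : J → ℝ → ℂ} (hl : ∀ j, ∀ᵐ τ : ℝ,
      Tendsto (fun σ : ℝ => EL α j ((σ : ℂ) + (τ : ℂ) * Complex.I)) (𝓝[>] 1) (𝓝 (l j τ)))
    (K₀ : Subfield ℂ) [Countable K₀] :
    ∀ᵐ τ : ℝ, AlgebraicIndependent K₀
      (Sum.elim (fun _ => (τ : ℂ)) (Sum.elim
        (fun p : Nat.Primes => ((p : ℕ) : ℂ) ^ ((τ : ℂ) * Complex.I)) (fun j => l j τ)) :
        VV J → ℂ) := by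
  classical
  have hcount : Countable (MvPolynomial (VV J) K₀) := by
    rw [← Cardinal.mk_le_aleph0_iff]
    refine (MvPolynomial.cardinalMk_le_max_lift).trans ?_
    refine max_le (max_le ?_ ?_) le_rfl
    · rw [Cardinal.lift_le_aleph0]
      exact Cardinal.mk_le_aleph0_iff.2 inferInstance
    · rw [Cardinal.lift_le_aleph0]
      exact Cardinal.mk_le_aleph0_iff.2 inferInstance
  have hall : ∀ᵐ τ : ℝ, ∀ P : MvPolynomial (VV J) K₀, P ≠ 0 →
      MvPolynomial.aeval (Sum.elim (fun _ => (τ : ℂ)) (Sum.elim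
        (fun p : Nat.Primes => ((p : ℕ) : ℂ) ^ ((τ : ℂ) * Complex.I)) (fun j => l j τ)) :
        VV J → ℂ) P ≠ 0 := by
    rw [ae_all_iff]
    intro P
    by_cases hP : P = 0
    · exact Eventually.of_forall fun τ h => absurd hP h
    set T : Finset (VV J →₀ ℕ) := P.support with hT
    set c : (VV J →₀ ℕ) → ℂ := fun d => algebraMap K₀ ℂ (P.coeff d) with hc
    set D : ℕ := ∑ d ∈ T, dT d with hD
    have hDle : ∀ d ∈ T, dT d ≤ D := fun d hd =>
      single_le_sum (f := fun d : VV J →₀ ℕ => dT d) (fun _ _ => Nat.zero_le _) hd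
    by_contra hcon
    have hE : ¬ ∀ᵐ τ : ℝ, ¬ Tendsto (fun σ : ℝ => ax α T c D ((σ : ℂ) + (τ : ℂ) * Complex.I))
        (𝓝[>] 1) (𝓝 0) := by
      intro h
      apply hcon
      filter_upwards [h, ae_all_iff.2 hl] with τ h1 h2 _ h3
      apply h1
      refine ax_tendsto T c hDle h2 ?_
      rw [MvPolynomial.aeval_def, MvPolynomial.eval₂_eq] at h3
      exact h3
    have h1 := (ax_tame hα T c D).unique hE
    have h2 := nonvanishing hα hMI T c fun s hs => by
      have h3 := h1 s hs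
      rw [ax_eq α T c hDle (ne_zero_of_re hs), div_eq_zero_iff] at h3
      rcases h3 with h3 | h3
      · exact h3
      · exact absurd h3 (pow_ne_zero _ (ne_zero_of_re hs))
    apply hP
    rw [← MvPolynomial.support_eq_empty, ← hT, eq_empty_iff_forall_notMem]
    intro d hd
    have h3 := h2 d hd
    rw [hc] at h3
    simp only at h3
    rw [map_eq_zero] at h3
    exact (MvPolynomial.mem_support_iff.1 (hT ▸ hd)) h3
  filter_upwards [hall] with τ hτ
  rw [algebraicIndependent_iff]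
  intro P hP
  by_contra hne
  exact hτ P hne hP

end

end Pool.Agent.TH345.ET
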