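import Pool.Agent.TH345.ET.N

/-!
# Shifts of one Euler product are multiplicatively independent
-/

set_option autoImplicit false

namespace Pool.Agent.TH345.ET

open Finset

/-- the real numbers modulo the rational multiples of `2π` -/
abbrev QV : Type := ℝ ⧸ (Submodule.span ℚ ({2 * Real.pi} : Set ℝ))

/-- the argument in it -/
noncomputable def phi (w : ℂ) : QV := Submodule.Quotient.mk w.arg

lemma phi_angle {x y : ℝ} (h : (x : Real.Angle) = (y : Real.Angle)) :
    (Submodule.Quotient.mk x : QV) = Submodule.Quotient.mk y := by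
  rw [Submodule.Quotient.eq]
  obtain ⟨k, hk⟩ := Real.Angle.angle_eq_iff_two_pi_dvd_sub.1 h
  rw [Submodule.mem_span_singleton]
  refine ⟨(k : ℚ), ?_⟩
  rw [hk, Rat.smul_def]
  push_cast
  ring

lemma phi_mul {z w : ℂ} (hz : z ≠ 0) (hw : w ≠ 0) : phi (z * w) = phi z + phi w := by
  unfold phi
  rw [← Submodule.Quotient.mk_add]
  apply phi_angle
  rw [Complex.arg_mul_coe_angle hz hw]
  rfl

lemma phi_one : phi 1 = 0 := by
  unfold phi
  rw [Complex.arg_one]
  rfl

lemma phi_inv {z : ℂ} (hz : z ≠ 0) : phi z⁻¹ = -phi z := by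
  have h := phi_mul hz (inv_ne_zero hz)
  rw [mul_inv_cancel₀ hz, phi_one] at h
  exact (neg_eq_of_add_eq_zero_right h.symm).symm

lemma phi_exp (x : ℝ) : phi (Complex.exp (x * Complex.I)) = Submodule.Quotient.mk x := by
  unfold phi
  apply phi_angle
  rw [Complex.arg_exp_mul_I]
  exact Real.Angle.coe_toIocMod _ _

/-- the twist `p^{-it}` -/
noncomputable def tw (t : ℝ) (p : ℕ) : ℂ := (p : ℂ) ^ (-((t : ℂ) * Complex.I))

lemma tw_eq (t : ℝ) {p : ℕ} (hp : 0 < p) :
    tw t p = Complex.exp (((-(t * Real.log p) : ℝ) : ℂ) * Complex.I) := by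
  unfold tw
  rw [Complex.cpow_def_of_ne_zero (Nat.cast_ne_zero.2 hp.ne'), ← Complex.natCast_log]
  congr 1
  push_cast
  ring

lemma norm_tw (t : ℝ) {p : ℕ} (hp : 0 < p) : ‖tw t p‖ = 1 := by
  rw [tw_eq t hp, Complex.norm_exp_ofReal_mul_I]

lemma phi_tw (t : ℝ) {p : ℕ} (hp : 0 < p) :
    phi (tw t p) = -Submodule.Quotient.mk (t * Real.log p) := by
  rw [tw_eq t hp, phi_exp]
  rfl

lemma roots_factor {β : ℂ} (hβ : β ≠ 0) :
    (1 - Polynomial.C β * Polynomial.X : Polynomial ℂ).roots = {β⁻¹} := by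
  have h1 : (1 - Polynomial.C β * Polynomial.X : Polynomial ℂ) =
      Polynomial.C (-β) * (Polynomial.X - Polynomial.C β⁻¹) := by
    rw [mul_sub, ← Polynomial.C_mul, neg_mul, mul_inv_cancel₀ hβ]
    simp only [Polynomial.C_neg, Polynomial.C_1]
    ring
  rw [h1, Polynomial.roots_C_mul _ (neg_ne_zero.2 hβ), Polynomial.roots_X_sub_C]

lemma factor_ne (β : ℂ) : (1 - Polynomial.C β * Polynomial.X : Polynomial ℂ) ≠ 0 := by
  intro h
  have := congrArg (Polynomial.eval 0) h
  simp at this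

/-- the image of a multiset in the group algebra -/
noncomputable def Phi (s : Multiset ℂ) : AddMonoidAlgebra ℤ QV :=
  (s.map fun w => AddMonoidAlgebra.single (phi w) (1 : ℤ)).sum

lemma Phi_add (s t : Multiset ℂ) : Phi (s + t) = Phi s + Phi t := by
  unfold Phi
  rw [Multiset.map_add, Multiset.sum_add]

lemma Phi_nsmul (n : ℕ) (s : Multiset ℂ) : Phi (n • s) = n • Phi s := by
  unfold Phi
  rw [Multiset.map_nsmul, Multiset.sum_nsmul]

lemma Phi_sum {ι : Type*} (t : Finset ι) (f : ι → Multiset ℂ) :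
    Phi (∑ i ∈ t, f i) = ∑ i ∈ t, Phi (f i) := by
  classical
  induction t using Finset.induction with
  | empty => simp [Phi]
  | insert a t ha ih => rw [sum_insert ha, sum_insert ha, Phi_add, ih]

lemma roots_prod' {ι : Type*} (t : Finset ι) (f : ι → Polynomial ℂ) (h : ∀ i ∈ t, f i ≠ 0) :
    (∏ i ∈ t, f i).roots = ∑ i ∈ t, (f i).roots := by
  rw [Polynomial.roots_prod f t (prod_ne_zero_iff.2 h)]
  rw [Multiset.bind, Multiset.join, Finset.sum]

lemma log_ratio {x : ℝ} (hx : x ≠ 0) {p q : ℕ} (hp : p.Prime) (hq : q.Prime)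
    (h1 : (Submodule.Quotient.mk (x * Real.log p) : QV) = 0)
    (h2 : (Submodule.Quotient.mk (x * Real.log q) : QV) = 0) : p = q := by
  rw [Submodule.Quotient.mk_eq_zero, Submodule.mem_span_singleton] at h1 h2
  obtain ⟨a, ha⟩ := h1
  obtain ⟨b, hb⟩ := h2
  rw [Rat.smul_def] at ha hb
  have hpi := Real.pi_pos
  have hlp : 0 < Real.log p := Real.log_pos (by exact_mod_cast hp.one_lt)
  have hlq : 0 < Real.log q := Real.log_pos (by exact_mod_cast hq.one_lt)
  have hb0 : (b : ℝ) ≠ 0 := by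
    intro h
    rw [h, zero_mul] at hb
    exact (mul_ne_zero hx hlq.ne') hb.symm
  have ha0 : (a : ℝ) ≠ 0 := by
    intro h
    rw [h, zero_mul] at ha
    exact (mul_ne_zero hx hlp.ne') ha.symm
  set r : ℚ := a / b with hr
  have hrlog : (r : ℝ) = Real.log p / Real.log q := by
    rw [hr, eq_div_iff hlq.ne']
    push_cast
    have h3 : (a : ℝ) * (2 * Real.pi) * Real.log q = (b : ℝ) * (2 * Real.pi) * Real.log p := by
      rw [ha, hb]
      ring
    have h4 : (a : ℝ) * Real.log q = b * Real.log p := by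
      have h5 : (2 * Real.pi) * ((a : ℝ) * Real.log q) = (2 * Real.pi) * (b * Real.log p) := by
        linarith
      exact mul_left_cancel₀ (by positivity) h5
    rw [div_mul_eq_mul_div, h4]
    field_simp
  have hrpos : 0 < r := by
    have : (0 : ℝ) < (r : ℝ) := by rw [hrlog]; positivity
    exact_mod_cast this
  have hnum : 0 < r.num := Rat.num_pos.2 hrpos
  have hnat : ((r.num.toNat : ℕ) : ℤ) = r.num := Int.toNat_of_nonneg hnum.le
  have h6 : (r.den : ℝ) * Real.log p = (r.num.toNat : ℝ) * Real.log q := by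
    have h7 : (r : ℝ) = (r.num : ℝ) / (r.den : ℝ) := by
      exact_mod_cast (Rat.num_div_den r).symm
    have h8 : ((r.num.toNat : ℕ) : ℝ) = (r.num : ℝ) := by exact_mod_cast hnat
    have hd : (0 : ℝ) < r.den := by exact_mod_cast r.den_pos
    rw [hrlog, div_eq_div_iff hlq.ne' hd.ne'] at h7
    rw [h8]
    linarith
  rw [← Real.log_pow, ← Real.log_pow] at h6
  have h9 : (p : ℝ) ^ r.den = (q : ℝ) ^ r.num.toNat :=
    Real.log_injOn_pos (by have := hp.pos; simp only [Set.mem_Ioi]; positivity)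
      (by have := hq.pos; simp only [Set.mem_Ioi]; positivity) h6
  have h10 : p ^ r.den = q ^ r.num.toNat := by exact_mod_cast h9
  have h11 : p ∣ q ^ r.num.toNat := by
    rw [← h10]
    exact dvd_pow_self p r.den_pos.ne'
  exact (Nat.prime_dvd_prime_iff_eq hp hq).1 (hp.dvd_of_dvd_pow h11)

section
variable {N : ℕ}

/-- the shifted Euler products -/
noncomputable def sh (α : ℕ → Fin N → ℂ) (S : Finset ℕ) (T : Set ℝ) (t : T) (p : ℕ) (i : Fin N) :
    ℂ := if p ∈ S then 0 else α p i * tw t p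

lemma LP_ne (α : ℕ → Fin N → ℂ) (p : ℕ) : LP α p ≠ 0 :=
  prod_ne_zero_iff.2 fun _ _ => factor_ne _

lemma Phi_LP (α : ℕ → Fin N → ℂ) {S : Finset ℕ} {T : Set ℝ} {p : ℕ} (hp : p.Prime) (hpS : p ∉ S)
    (hα : ∀ i, α p i ≠ 0) (t : T) :
    Phi (LP (sh α S T t) p).roots =
      AddMonoidAlgebra.single (Submodule.Quotient.mk ((t : ℝ) * Real.log p) : QV) (1 : ℤ) *
        ∑ i, AddMonoidAlgebra.single (-phi (α p i)) (1 : ℤ) := by
  have htw : tw t p ≠ 0 := by
    intro h
    have := norm_tw t hp.pos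
    rw [h, norm_zero] at this
    exact zero_ne_one this
  unfold LP
  rw [roots_prod' _ _ (fun _ _ => factor_ne _), Phi_sum, mul_sum]
  refine sum_congr rfl fun i _ => ?_
  have h1 : sh α S T t p i = α p i * tw t p := by
    unfold sh
    rw [if_neg hpS]
  rw [h1, roots_factor (mul_ne_zero (hα i) htw)]
  unfold Phi
  rw [Multiset.map_singleton, Multiset.sum_singleton, AddMonoidAlgebra.single_mul_single, mul_one,
    phi_inv (mul_ne_zero (hα i) htw), phi_mul (hα i) htw, phi_tw _ hp.pos]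
  congr 1
  abel

lemma Phi_MP (α : ℕ → Fin N → ℂ) {S : Finset ℕ} {T : Set ℝ} {p : ℕ} (hp : p.Prime) (hpS : p ∉ S)
    (hα : ∀ i, α p i ≠ 0) (a : T →₀ ℕ) :
    Phi (MP (J := T) (N := fun _ => N) (sh α S T) p a).roots =
      (∑ t ∈ a.support, a t • AddMonoidAlgebra.single
        (Submodule.Quotient.mk ((t : ℝ) * Real.log p) : QV) (1 : ℤ)) *
        ∑ i, AddMonoidAlgebra.single (-phi (α p i)) (1 : ℤ) := by
  unfold MP
  rw [roots_prod' _ _ (fun _ _ => pow_ne_zero _ (LP_ne _ _)), Phi_sum, sum_mul]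
  refine sum_congr rfl fun t _ => ?_
  rw [Polynomial.roots_pow, Phi_nsmul, Phi_LP α hp hpS hα, smul_mul_assoc]

lemma aug_ne (hN : 0 < N) (w : Fin N → QV) :
    ∑ i, AddMonoidAlgebra.single (w i) (1 : ℤ) ≠ 0 := by
  intro h
  have h1 := congrArg (AddMonoidAlgebra.lift ℤ ℤ QV (1 : Multiplicative QV →* ℤ)) h
  rw [map_sum, map_zero] at h1
  simp only [AddMonoidAlgebra.lift_single, MonoidHom.one_apply, smul_eq_mul, mul_one, sum_const,
    card_univ, Fintype.card_fin, nsmul_eq_mul] at h1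
  have : (N : ℤ) = 0 := by exact_mod_cast h1
  omega

/-- a coefficient -/
noncomputable def evc (v : QV) : AddMonoidAlgebra ℤ QV →+ ℤ :=
  (Finsupp.applyAddHom v).comp (AddMonoidAlgebra.coeffAddEquiv).toAddMonoidHom

lemma evc_single (v w : QV) (n : ℤ) [Decidable (w = v)] :
    evc v (AddMonoidAlgebra.single w n) = if w = v then n else 0 := by
  change (AddMonoidAlgebra.single w n).coeff v = _
  rw [AddMonoidAlgebra.coeff_single, Finsupp.single_apply]

theorem MI_shift (hN : 0 < N) {α : ℕ → Fin N → ℂ} {S : Finset ℕ}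
    (hα : ∀ p : ℕ, p.Prime → p ∉ S → ∀ i, α p i ≠ 0) (T : Set ℝ) :
    MI (J := T) (N := fun _ => N) (sh α S T) := by
  classical
  intro a a' hne S'
  by_contra hcon
  push Not at hcon
  obtain ⟨t₀, ht₀⟩ : ∃ t₀, a t₀ ≠ a' t₀ := by
    by_contra h
    push Not at h
    exact hne (Finsupp.ext h)
  set U : Finset T := a.support ∪ a'.support with hU
  have ht₀U : t₀ ∈ U := by
    rw [hU, mem_union, Finsupp.mem_support_iff, Finsupp.mem_support_iff]
    by_contra h
    push Not at h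
    exact ht₀ (h.1.trans h.2.symm)
  -- for all primes there is a coincidence
  have key : ∀ p : ℕ, p.Prime → p ∉ S → p ∉ S' → ∃ t ∈ U.erase t₀,
      (Submodule.Quotient.mk (((t : ℝ) - t₀) * Real.log p) : QV) = 0 := by
    intro p hp hpS hpS'
    have h1 := congrArg (fun P : Polynomial ℂ => Phi P.roots) (hcon p hp hpS')
    rw [Phi_MP α hp hpS (hα p hp hpS), Phi_MP α hp hpS (hα p hp hpS), ← sub_eq_zero,
      ← sub_mul] at h1
    rcases mul_eq_zero.1 h1 with h2 | h2
    swap
    · exact absurd h2 (aug_ne hN _)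
    have hsum : ∀ b : T →₀ ℕ, b.support ⊆ U → (∑ t ∈ b.support, b t • AddMonoidAlgebra.single
        (Submodule.Quotient.mk ((t : ℝ) * Real.log p) : QV) (1 : ℤ)) =
        ∑ t ∈ U, b t • AddMonoidAlgebra.single
        (Submodule.Quotient.mk ((t : ℝ) * Real.log p) : QV) (1 : ℤ) := by
      intro b hb
      refine sum_subset hb fun t _ ht => ?_
      rw [Finsupp.notMem_support_iff.1 ht, zero_smul]
    rw [hsum a subset_union_left, hsum a' subset_union_right, ← sum_sub_distrib] at h2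
    by_contra hno
    push Not at hno
    have h3 := congrArg (evc (Submodule.Quotient.mk ((t₀ : ℝ) * Real.log p) : QV)) h2
    rw [map_zero, map_sum, sum_eq_single t₀] at h3
    · rw [map_sub, map_nsmul, map_nsmul, evc_single, if_pos rfl] at h3
      simp only [nsmul_eq_mul, mul_one] at h3
      apply ht₀
      exact_mod_cast sub_eq_zero.1 h3
    · intro t ht htne
      have h4 := hno t (mem_erase.2 ⟨htne, ht⟩)
      have h5 : (Submodule.Quotient.mk ((t : ℝ) * Real.log p) : QV) ≠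
          Submodule.Quotient.mk ((t₀ : ℝ) * Real.log p) := by
        intro h
        apply h4
        rw [sub_mul, Submodule.Quotient.mk_sub, h, sub_self]
      rw [map_sub, map_nsmul, map_nsmul, evc_single, if_neg h5]
      simp
    · intro h
      exact absurd ht₀U h
  -- pigeonhole
  have hinf : Infinite {p : ℕ // p.Prime ∧ p ∉ S ∧ p ∉ S'} := by
    have h1 : {p : ℕ | p.Prime}.Infinite := Nat.infinite_setOfPred_prime
    have h2 : ({p : ℕ | p.Prime} \ ((S ∪ S' : Finset ℕ) : Set ℕ)).Infinite :=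
      h1.sdiff (finite_toSet _)
    refine Set.Infinite.to_subtype (s := {p : ℕ | p.Prime ∧ p ∉ S ∧ p ∉ S'}) (h2.mono ?_)
    intro p hp
    refine ⟨hp.1, fun h => hp.2 ?_, fun h => hp.2 ?_⟩
    · exact mem_coe.2 (mem_union_left _ h)
    · exact mem_coe.2 (mem_union_right _ h)
  have hch : ∀ p : {p : ℕ // p.Prime ∧ p ∉ S ∧ p ∉ S'}, ∃ t : {t : T // t ∈ U.erase t₀},
      (Submodule.Quotient.mk (((t.1 : ℝ) - t₀) * Real.log p.1) : QV) = 0 := by
    intro p
    obtain ⟨t, ht, h⟩ := key p.1 p.2.1 p.2.2.1 p.2.2.2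
    exact ⟨⟨t, ht⟩, h⟩
  choose F hF using hch
  obtain ⟨p, q, hpq, hFpq⟩ := Finite.exists_ne_map_eq_of_infinite F
  apply hpq
  have h1 := hF p
  have h2 := hF q
  rw [← hFpq] at h2
  have hx : (((F p).1 : ℝ) - t₀) ≠ 0 := by
    intro h
    have h3 := (mem_erase.1 (F p).2).1
    apply h3
    exact Subtype.ext (sub_eq_zero.1 h)
  exact Subtype.ext (log_ratio hx p.2.1 q.2.1 h1 h2)

end

end Pool.Agent.TH345.ET
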