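import Pool.Agent.TH345.ET.O

/-!
# The boundary values of the shifted Euler products
-/

set_option autoImplicit false

namespace Pool.Agent.TH345.ET

open Finset Filter Topology MeasureTheory
open Pool.Agent.TH339.MP (FF bα norm_bα hasProd_α fα bl bl_angle ae_notMem eig_le_one)

section
variable {N : ℕ}

lemma norm_sh {α : ℕ → Fin N → ℂ} {S : Finset ℕ} (hα : ∀ p : ℕ, p.Prime → p ∉ S → ∀ i, ‖α p i‖ ≤ 1)
    {T : Set ℝ} (t : T) (p : ℕ) (hp : p.Prime) (i : Fin N) : ‖sh α S T t p i‖ ≤ 1 := by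
  unfold sh
  split_ifs with h
  · simp
  · rw [norm_mul, norm_tw _ hp.pos, mul_one]
    exact hα p hp h i

lemma EL_sh {α : ℕ → Fin N → ℂ} {S : Finset ℕ} (hα : ∀ p : ℕ, p.Prime → p ∉ S → ∀ i, ‖α p i‖ ≤ 1)
    {T : Set ℝ} (t : T) {s : ℂ} (hs : 1 < s.re) :
    EL (J := T) (N := fun _ => N) (sh α S T) t s =
      Complex.exp (FF (bα α S) (s + ((t : ℝ) : ℂ) * Complex.I)) := by
  have h1 := hasProd_α (S := ∅) (α := sh α S T t) (fun p hp _ i => norm_sh hα t p hp i) hs
  have hs' : 1 < (s + ((t : ℝ) : ℂ) * Complex.I).re := by simpa using hs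
  have h2 := hasProd_α (S := S) hα hs'
  have h3 : fα (sh α S T t) ∅ s = fα α S (s + ((t : ℝ) : ℂ) * Complex.I) := by
    funext p
    unfold fα sh
    rw [if_neg (notMem_empty _)]
    by_cases hp : (p : ℕ) ∈ S
    · simp [hp]
    · simp only [hp, if_false]
      refine prod_congr rfl fun i _ => ?_
      unfold tw
      have hne : ((p : ℕ) : ℂ) ≠ 0 := Nat.cast_ne_zero.2 p.2.ne_zero
      rw [mul_assoc, ← Complex.cpow_add _ _ hne]
      congr 4
      ring
  rw [h3] at h1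
  exact h1.unique h2

lemma tendsto_sh {α : ℕ → Fin N → ℂ} {S : Finset ℕ}
    (hα : ∀ p : ℕ, p.Prime → p ∉ S → ∀ i, ‖α p i‖ ≤ 1) {T : Set ℝ} (t : T) :
    ∀ᵐ τ : ℝ, Tendsto (fun σ : ℝ => EL (J := T) (N := fun _ => N) (sh α S T) t
      ((σ : ℂ) + (τ : ℂ) * Complex.I)) (𝓝[>] 1)
      (𝓝 (Complex.exp (bl (bα α S) (τ + t)))) := by
  have hb := norm_bα hα
  have h1 := ae_notMem hb
  have h2 := (measurePreserving_add_right (volume : Measure ℝ) (t : ℝ)).quasiMeasurePreserving.ae h1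
  filter_upwards [h2] with τ hτ
  have h5 := bl_angle hb hτ 1
  have h6 : Tendsto (fun σ : ℝ => ((σ - 1 : ℝ) : ℂ)) (𝓝[>] 1)
      (𝓝[{z : ℂ | 0 < z.re ∧ ‖z‖ ≤ 1 * z.re}] 0) := by
    rw [tendsto_nhdsWithin_iff]
    constructor
    · have h7 : Continuous fun σ : ℝ => ((σ - 1 : ℝ) : ℂ) := by fun_prop
      have h8 := h7.tendsto 1
      simp only [sub_self, Complex.ofReal_zero] at h8
      exact h8.mono_left nhdsWithin_le_nhds
    · filter_upwards [self_mem_nhdsWithin] with σ hσ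
      have hσ' : (1 : ℝ) < σ := hσ
      refine ⟨?_, ?_⟩
      · rw [Complex.ofReal_re]
        linarith
      · rw [Complex.norm_real, Real.norm_of_nonneg (by linarith), Complex.ofReal_re, one_mul]
  have h7 := (Complex.continuous_exp.tendsto _).comp (h5.comp h6)
  refine h7.congr' ?_
  filter_upwards [self_mem_nhdsWithin] with σ hσ
  have hσ' : (1 : ℝ) < σ := hσ
  rw [EL_sh hα t (by rw [re_line]; exact hσ')]
  simp only [Function.comp_apply]
  congr 2
  push_cast
  ring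

/-- **Shifts of one Euler product.** -/
theorem shifts (hN : 0 < N) {α : ℕ → Fin N → ℂ} {S : Finset ℕ}
    (hα : ∀ p : ℕ, p.Prime → p ∉ S → ∀ i, ‖α p i‖ ≤ 1)
    (hα0 : ∀ p : ℕ, p.Prime → p ∉ S → ∀ i, α p i ≠ 0)
    (K₀ : Subfield ℂ) [Countable K₀] (T : Set ℝ) (hT : T.Countable) :
    ∀ᵐ τ : ℝ, AlgebraicIndependent K₀
      (Sum.elim (fun _ => (τ : ℂ)) (Sum.elim
        (fun p : Nat.Primes => ((p : ℕ) : ℂ) ^ ((τ : ℂ) * Complex.I))
        (fun t : T => Complex.exp (bl (bα α S) (τ + t)))) : VV T → ℂ) := by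
  haveI : Countable T := hT.to_subtype
  exact core (J := T) (N := fun _ => N) (α := sh α S T)
    (fun t p hp i => norm_sh hα t p hp i) (MI_shift hN hα0 T)
    (l := fun t τ => Complex.exp (bl (bα α S) (τ + t))) (fun t => tendsto_sh hα t) K₀

lemma exists_fin (m : Multiset ℂ) (hm : Multiset.card m = N) :
    ∃ f : Fin N → ℂ, m = Multiset.map f Finset.univ.val := by
  subst hm
  refine ⟨fun i => m.toList.get (i.cast (Multiset.length_toList m).symm), ?_⟩
  rw [Fin.univ_val_map]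
  have h1 : List.ofFn (fun i : Fin (Multiset.card m) =>
      m.toList.get (i.cast (Multiset.length_toList m).symm)) = m.toList := by
    refine List.ext_get (by simp) fun n h1 h2 => ?_
    simp
  rw [h1, Multiset.coe_toList]

/-- the eigenvalues of an element of a compact group -/
lemma exists_eig {H : Type*} [Group H] [TopologicalSpace H] (A : ℕ → H) (S : Finset ℕ)
    (hA : ∀ p : ℕ, p.Prime → p ∉ S → ∃ C : Subgroup H, IsCompact (C : Set H) ∧ A p ∈ C)
    (ρ : H →* Matrix (Fin N) (Fin N) ℂ) (hρ : Continuous ρ) :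
    ∃ α : ℕ → Fin N → ℂ,
      (∀ p : ℕ, (ρ (A p)).charpoly.roots = Multiset.map (α p) Finset.univ.val) ∧
      (∀ p : ℕ, p.Prime → p ∉ S → ∀ i, ‖α p i‖ ≤ 1) ∧ ∀ p i, α p i ≠ 0 := by
  have h1 : ∀ p : ℕ, ∃ f : Fin N → ℂ,
      (ρ (A p)).charpoly.roots = Multiset.map f Finset.univ.val := by
    intro p
    refine exists_fin _ ?_
    have h2 := (IsAlgClosed.splits (ρ (A p)).charpoly).natDegree_eq_card_roots
    rw [← h2, Matrix.charpoly_natDegree_eq_dim, Fintype.card_fin]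
  choose α hα using h1
  have hmem : ∀ p i, α p i ∈ (ρ (A p)).charpoly.roots := by
    intro p i
    rw [hα p]
    exact Multiset.mem_map_of_mem _ (Finset.mem_univ_val i)
  refine ⟨α, hα, ?_, ?_⟩
  · intro p hp hpS i
    obtain ⟨C, hC, hg⟩ := hA p hp hpS
    exact eig_le_one ρ hρ C hC hg (hmem p i)
  · intro p i h0
    have h2 : (0 : ℂ) ∈ spectrum ℂ (ρ (A p)) := by
      rw [Matrix.mem_spectrum_iff_isRoot_charpoly, ← h0]
      exact (Polynomial.mem_roots'.1 (hmem p i)).2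
    rw [spectrum.zero_mem_iff] at h2
    exact h2 ((Group.isUnit (A p)).map ρ)

end

end Pool.Agent.TH345.ET
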