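import Mathlib.RepresentationTheory.Irreducible
import Mathlib.RingTheory.SimpleModule.Basic
import Mathlib.LinearAlgebra.Trace

/-!
# Linear independence of the characters of non-isomorphic irreducible representations
-/

set_option autoImplicit false

namespace Pool.Agent.TH345.ET

open Finset

section
variable {F G : Type*} [Field F] [Group G]

/-- the additive character of the monoid algebra -/
noncomputable def trc {V : Type*} [AddCommGroup V] [Module F V] (ρ : Representation F G V) :
    MonoidAlgebra F G →ₗ[F] F := (LinearMap.trace F V) ∘ₗ ρ.asAlgebraHom.toLinearMap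

lemma trc_single {V : Type*} [AddCommGroup V] [Module F V] (ρ : Representation F G V)
    (g : G) (c : F) : trc ρ (MonoidAlgebra.single g c) = c * LinearMap.trace F V (ρ g) := by
  unfold trc
  rw [LinearMap.comp_apply, AlgHom.toLinearMap_apply, Representation.asAlgebraHom_single, map_smul,
    smul_eq_mul]

lemma trc_sum_zero {J : Type*} [Fintype J] {V : J → Type*} [∀ j, AddCommGroup (V j)]
    [∀ j, Module F (V j)] (ρ : (j : J) → Representation F G (V j)) (a : J → F)
    (h : ∀ g, ∑ j, a j * LinearMap.trace F (V j) (ρ j g) = 0) (r : MonoidAlgebra F G) :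
    ∑ j, a j * trc (ρ j) r = 0 := by
  have h1 : ∑ j, a j • trc (ρ j) = 0 := by
    refine MonoidAlgebra.lhom_ext' fun g => ?_
    refine LinearMap.ext fun c => ?_
    simp only [LinearMap.coe_comp, Function.comp_apply, LinearMap.zero_apply]
    rw [LinearMap.sum_apply]
    simp only [MonoidAlgebra.lsingle_apply, LinearMap.smul_apply, trc_single, smul_eq_mul]
    calc ∑ j, a j * (c * LinearMap.trace F (V j) (ρ j g))
        = c * ∑ j, a j * LinearMap.trace F (V j) (ρ j g) := by
          rw [mul_sum]
          exact sum_congr rfl fun j _ => by ring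
      _ = 0 := by rw [h g, mul_zero]
  have h2 := congrArg (fun f : MonoidAlgebra F G →ₗ[F] F => f r) h1
  simpa [LinearMap.sum_apply] using h2

open Classical in
/-- an element of the monoid algebra acting as the identity on one of several pairwise non-isomorphic
irreducible representations and as zero on the others -/
lemma exists_idem {J : Type*} [Fintype J] {V : J → Type*} [∀ j, AddCommGroup (V j)]
    [∀ j, Module F (V j)] [∀ j, FiniteDimensional F (V j)]
    (ρ : (j : J) → Representation F G (V j)) (hirr : ∀ j, (ρ j).IsIrreducible)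
    (hne : ∀ i j, i ≠ j → IsEmpty ((ρ i).Equiv (ρ j))) (j₀ : J) :
    ∃ r : MonoidAlgebra F G, (ρ j₀).asAlgebraHom r = 1 ∧
      ∀ j, j ≠ j₀ → (ρ j).asAlgebraHom r = 0 := by
  have := hirr
  have hz : ∀ i j, i ≠ j → ∀ f : (ρ i).asModule →ₗ[MonoidAlgebra F G] (ρ j).asModule, f = 0 := by
    intro i j hij f
    have := hne i j hij
    have h1 : (Representation.IntertwiningMap.equivLinearMapAsModule (ρ i) (ρ j)).symm f = 0 :=
      Subsingleton.elim _ _
    exact (LinearEquiv.map_eq_zero_iff _).1 h1
  let M : J → Type _ := fun j => (ρ j).asModule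
  have hT : ∀ (T : Module.End (MonoidAlgebra F G) (Π j, M j)) (i j : J), i ≠ j → ∀ x : M i,
      T (Pi.single i x) j = 0 := by
    intro T i j hij x
    have h1 := hz i j hij ((LinearMap.proj j) ∘ₗ T ∘ₗ (LinearMap.single _ M i))
    exact congrArg (fun f => f x) h1
  let f : Module.End (Module.End (MonoidAlgebra F G) (Π j, M j)) (Π j, M j) :=
    { toFun := fun m => Pi.single j₀ (m j₀)
      map_add' := fun m m' => by rw [Pi.add_apply, Pi.single_add]
      map_smul' := by
        intro T m
        rw [RingHom.id_apply, Module.End.smul_def, Module.End.smul_def]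
        have h1 : ∀ x : M j₀, T (Pi.single j₀ x) = Pi.single j₀ (T (Pi.single j₀ x) j₀) := by
          intro x
          funext j
          by_cases hj : j = j₀
          · subst hj
            rw [Pi.single_eq_same]
          · rw [Pi.single_eq_of_ne hj, hT T j₀ j (Ne.symm hj)]
        have h2 : (T m) j₀ = T (Pi.single j₀ (m j₀)) j₀ := by
          have h3 : m = ∑ i, Pi.single i (m i) := (Finset.univ_sum_single m).symm
          conv_lhs => rw [h3]
          rw [map_sum, Finset.sum_apply, Finset.sum_eq_single j₀]
          · intro i _ hi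
            exact hT T i j₀ hi (m i)
          · intro h
            exact absurd (mem_univ _) h
        rw [h2, ← h1] }
  let b := fun j => Module.finBasis F (V j)
  let e : (j : J) → Fin (Module.finrank F (V j)) → M j :=
    fun j k => (ρ j).asModuleEquiv.symm (b j k)
  let s : Finset (Π j, M j) := Finset.univ.image
    (fun x : Σ j, Fin (Module.finrank F (V j)) => (Pi.single x.1 (e x.1 x.2) : Π j, M j))
  obtain ⟨r, hr⟩ := jacobson_density (R := MonoidAlgebra F G) f s
  have hr' : ∀ j (k : Fin (Module.finrank F (V j))),
      (Pi.single j₀ ((Pi.single j (e j k) : Π j, M j) j₀) : Π j, M j) =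
        r • (Pi.single j (e j k) : Π j, M j) := by
    intro j k
    exact hr (Pi.single j (e j k) : Π j, M j)
      (Finset.mem_image.2 ⟨⟨j, k⟩, mem_univ _, rfl⟩)
  refine ⟨r, ?_, fun j hj => ?_⟩
  · refine (b j₀).ext fun k => ?_
    have h1 : e j₀ k = r • e j₀ k := by
      have h0 := congrFun (hr' j₀ k) j₀
      rw [Pi.smul_apply] at h0
      simpa only [Pi.single_eq_same] using h0
    have h2 := congrArg (ρ j₀).asModuleEquiv h1
    rw [Representation.asModuleEquiv_map_smul] at h2
    exact h2.symm
  · refine (b j).ext fun k => ?_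
    have h1 : (0 : M j) = r • e j k := by
      have h0 := congrFun (hr' j k) j
      rw [Pi.smul_apply, Pi.single_eq_of_ne hj, Pi.single_eq_same] at h0
      exact h0
    have h2 := congrArg (ρ j).asModuleEquiv h1
    rw [Representation.asModuleEquiv_map_smul, map_zero] at h2
    exact h2.symm

/-- **Linear independence of characters** of pairwise non-isomorphic irreducible representations. -/
theorem char_indep [CharZero F] {J : Type*} [Fintype J] {V : J → Type*} [∀ j, AddCommGroup (V j)]
    [∀ j, Module F (V j)] [∀ j, FiniteDimensional F (V j)]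
    (ρ : (j : J) → Representation F G (V j)) (hirr : ∀ j, (ρ j).IsIrreducible)
    (hne : ∀ i j, i ≠ j → IsEmpty ((ρ i).Equiv (ρ j))) (a : J → F)
    (h : ∀ g, ∑ j, a j * LinearMap.trace F (V j) (ρ j g) = 0) : a = 0 := by
  classical
  funext j₀
  obtain ⟨r, hr1, hr0⟩ := exists_idem ρ hirr hne j₀
  have h1 := trc_sum_zero ρ a h r
  rw [Finset.sum_eq_single j₀] at h1
  · have h2 : trc (ρ j₀) r = (Module.finrank F (V j₀) : F) := by
      unfold trc
      rw [LinearMap.comp_apply, AlgHom.toLinearMap_apply, hr1, LinearMap.trace_one]
    rw [h2] at h1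
    rcases mul_eq_zero.1 h1 with h3 | h3
    · exact h3
    · exfalso
      have := hirr j₀
      have hs : IsSimpleModule (MonoidAlgebra F G) (ρ j₀).asModule := inferInstance
      have hn : Nontrivial (ρ j₀).asModule := IsSimpleModule.nontrivial (MonoidAlgebra F G) _
      have hn' : Nontrivial (V j₀) := hn
      rw [Nat.cast_eq_zero] at h3
      exact (Module.finrank_pos (R := F) (M := V j₀)).ne' h3
  · intro j _ hj
    unfold trc
    rw [LinearMap.comp_apply, AlgHom.toLinearMap_apply, hr0 j hj, map_zero, mul_zero]
  · intro h
    exact absurd (mem_univ _) h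

end

end Pool.Agent.TH345.ET
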