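import Pool.Agent.TH345.ET.P
import Pool.Agent.TH345.ET.Q
import Mathlib.LinearAlgebra.Matrix.Charpoly.Eigs

/-!
# Multiplicative independence from linear independence of traces
-/

set_option autoImplicit false

namespace Pool.Agent.TH345.ET

open Finset Filter Topology MeasureTheory

lemma c0_prod {ι : Type*} (s : Finset ι) (f : ι → Polynomial ℂ) (h : ∀ i ∈ s, (f i).coeff 0 = 1) :
    (∏ i ∈ s, f i).coeff 0 = 1 := by
  classical
  induction s using Finset.induction_on with
  | empty => simp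
  | insert i s hi ih =>
    rw [prod_insert hi, Polynomial.mul_coeff_zero, h i (mem_insert_self _ _),
      ih fun j hj => h j (mem_insert_of_mem hj), one_mul]

lemma c1_prod {ι : Type*} (s : Finset ι) (f : ι → Polynomial ℂ) (h : ∀ i ∈ s, (f i).coeff 0 = 1) :
    (∏ i ∈ s, f i).coeff 1 = ∑ i ∈ s, (f i).coeff 1 := by
  classical
  induction s using Finset.induction_on with
  | empty => simp [Polynomial.coeff_one]
  | insert i s hi ih =>
    have h1 : ∀ j ∈ s, (f j).coeff 0 = 1 := fun j hj => h j (mem_insert_of_mem hj)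
    rw [prod_insert hi, sum_insert hi, Polynomial.mul_coeff_one, h i (mem_insert_self _ _),
      c0_prod s f h1, ih h1]
    ring

section
variable {J : Type*} {N : J → ℕ}

lemma c0_LP {n : ℕ} (α : ℕ → Fin n → ℂ) (p : ℕ) : (LP α p).coeff 0 = 1 := by
  unfold LP
  refine c0_prod _ _ fun i _ => ?_
  simp

lemma c1_LP {n : ℕ} (α : ℕ → Fin n → ℂ) (p : ℕ) : (LP α p).coeff 1 = -∑ i, α p i := by
  unfold LP
  rw [c1_prod, ← sum_neg_distrib]
  · refine sum_congr rfl fun i _ => ?_
    simp [Polynomial.coeff_one]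
  · intro i _
    simp

lemma c1_pow (f : Polynomial ℂ) (h : f.coeff 0 = 1) (n : ℕ) :
    (f ^ n).coeff 0 = 1 ∧ (f ^ n).coeff 1 = n * f.coeff 1 := by
  have h1 := c0_prod (range n) (fun _ => f) fun _ _ => h
  have h2 := c1_prod (range n) (fun _ => f) fun _ _ => h
  rw [prod_const, card_range] at h1 h2
  refine ⟨h1, ?_⟩
  rw [h2, sum_const, card_range, nsmul_eq_mul]

lemma c1_MP (α : (j : J) → ℕ → Fin (N j) → ℂ) (p : ℕ) (a : J →₀ ℕ) :
    (MP α p a).coeff 1 = -∑ j ∈ a.support, (a j : ℂ) * ∑ i, α j p i := by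
  unfold MP
  rw [c1_prod, ← sum_neg_distrib]
  · refine sum_congr rfl fun j _ => ?_
    rw [(c1_pow _ (c0_LP (α j) p) _).2, c1_LP]
    ring
  · intro j _
    exact (c1_pow _ (c0_LP (α j) p) _).1

theorem MI_of_trace {α : (j : J) → ℕ → Fin (N j) → ℂ}
    (h : ∀ c : J →₀ ℤ, (∃ S : Finset ℕ, ∀ p : ℕ, p.Prime → p ∉ S →
      (c.sum fun j m => (m : ℂ) * ∑ i, α j p i) = 0) → c = 0) : MI α := by
  intro a a' haa S
  by_contra hcon
  push Not at hcon
  apply haa
  set f : (J →₀ ℕ) → (J →₀ ℤ) := fun a => Finsupp.mapRange (fun n : ℕ => (n : ℤ)) rfl a with hf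
  have hsum : ∀ (a : J →₀ ℕ) (p : ℕ), ((f a).sum fun j m => (m : ℂ) * ∑ i, α j p i) =
      ∑ j ∈ a.support, (a j : ℂ) * ∑ i, α j p i := by
    intro a p
    rw [hf]
    simp only
    rw [Finsupp.sum_mapRange_index]
    · unfold Finsupp.sum
      refine sum_congr rfl fun j _ => ?_
      simp
    · intro j
      simp
  have h1 := h (f a - f a') ⟨S, fun p hp hpS => by
    rw [Finsupp.sum_sub_index, hsum, hsum]
    · have h2 := congrArg (fun q : Polynomial ℂ => q.coeff 1) (hcon p hp hpS)
      simp only [c1_MP] at h2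
      rw [neg_inj] at h2
      rw [h2, sub_self]
    · intro j m m'
      push_cast
      ring⟩
  have h2 := sub_eq_zero.1 h1
  refine Finsupp.ext fun j => ?_
  have h3 := congrArg (fun c : J →₀ ℤ => c j) h2
  simpa [hf] using h3

end

section
variable {F G : Type*} [Field F] [Group G]

/-- a matrix representation as a representation -/
noncomputable def toRep {n : ℕ} (ρ : G →* Matrix (Fin n) (Fin n) F) :
    Representation F G (Fin n → F) :=
  (Matrix.toLinAlgEquiv' : Matrix (Fin n) (Fin n) F ≃ₐ[F] _).toMonoidHom.comp ρ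

lemma trace_toRep {n : ℕ} (ρ : G →* Matrix (Fin n) (Fin n) F) (g : G) :
    LinearMap.trace F (Fin n → F) (toRep ρ g) = (ρ g).trace := by
  have h : toRep ρ g = Matrix.toLin' (ρ g) := rfl
  rw [h, Matrix.trace_toLin'_eq]

/-- Characters of pairwise non-isomorphic irreducible representations, indexed by any set, are
linearly independent over the integers. -/
theorem indep_of_irr [CharZero F] {J : Type*} {N : J → ℕ}
    (ρ : (j : J) → G →* Matrix (Fin (N j)) (Fin (N j)) F)
    (hirr : ∀ j, (toRep (ρ j)).IsIrreducible)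
    (hne : ∀ i j, i ≠ j → IsEmpty ((toRep (ρ i)).Equiv (toRep (ρ j)))) (c : J →₀ ℤ)
    (h : ∀ g, (c.sum fun j m => (m : F) * (ρ j g).trace) = 0) : c = 0 := by
  classical
  have h1 := char_indep (F := F) (G := G) (J := c.support) (V := fun j => Fin (N j) → F)
    (fun j => toRep (ρ j)) (fun j => hirr j)
    (fun i j hij => hne i j fun h => hij (Subtype.ext h)) (fun j => (c j : F)) (fun g => by
      have h2 := h g
      unfold Finsupp.sum at h2
      rw [← Finset.sum_coe_sort] at h2
      simp only [trace_toRep]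
      exact h2)
  rw [← Finsupp.support_eq_empty, eq_empty_iff_forall_notMem]
  intro j hj
  have h3 := congrFun h1 ⟨j, hj⟩
  simp only [Pi.zero_apply, Int.cast_eq_zero] at h3
  exact (Finsupp.mem_support_iff.1 hj) h3

/-- a relation between traces at almost all Frobenius elements holds on the whole group -/
theorem dense_trace [TopologicalSpace F] [IsTopologicalRing F] [T2Space F] [TopologicalSpace G]
    (Φ : ℕ → G) (hΦ : ∀ S : Finset ℕ, Dense {g : G | ∃ p : ℕ, p.Prime ∧ p ∉ S ∧ IsConj (Φ p) g})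
    {J : Type*} {N : J → ℕ} (ρ : (j : J) → G →* Matrix (Fin (N j)) (Fin (N j)) F)
    (hρ : ∀ j, Continuous (ρ j)) (c : J →₀ ℤ) (S : Finset ℕ)
    (h : ∀ p : ℕ, p.Prime → p ∉ S → (c.sum fun j m => (m : F) * (ρ j (Φ p)).trace) = 0) (g : G) :
    (c.sum fun j m => (m : F) * (ρ j g).trace) = 0 := by
  have hc : Continuous fun g : G => (c.sum fun j m => (m : F) * (ρ j g).trace) := by
    unfold Finsupp.sum
    refine continuous_finsetSum _ fun j _ => ?_
    exact continuous_const.mul (hρ j).matrix_trace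
  have h0 : ∀ g ∈ {g : G | ∃ p : ℕ, p.Prime ∧ p ∉ S ∧ IsConj (Φ p) g},
      (c.sum fun j m => (m : F) * (ρ j g).trace) = 0 := by
    rintro g ⟨p, hp, hpS, hconj⟩
    rw [← h p hp hpS]
    unfold Finsupp.sum
    refine sum_congr rfl fun j _ => ?_
    obtain ⟨u, hu⟩ := isConj_iff.1 hconj
    have h5 : (ρ j (u * Φ p * u⁻¹)).trace = (ρ j (Φ p)).trace := by
      rw [map_mul, map_mul, Matrix.trace_mul_cycle, ← map_mul, inv_mul_cancel, map_one, one_mul]
    simp only [← hu, h5]
  have h1 : (fun g : G => (c.sum fun j m => (m : F) * (ρ j g).trace)) = fun _ => 0 :=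
    Continuous.ext_on (hΦ S) hc continuous_const h0
  exact congrFun h1 g

end

end Pool.Agent.TH345.ET
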