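import Pool.Agent.TH345.ET.R

/-!
# Euler products of systems of matrices with normalised eigenvalues
-/

set_option autoImplicit false

namespace Pool.Agent.TH345.ET

open Finset Filter Topology MeasureTheory
open Pool.Agent.TH339.MP (FF bα norm_bα hasProd_α fα bl bl_angle ae_notMem boundary ap)
open Pool.Agent.W350.Edge (divSet)

/-- the eigenvalues of a system of complex matrices, normalised -/
lemma exists_norm_eig {n : ℕ} (B : ℕ → Matrix (Fin n) (Fin n) ℂ) (S : Finset ℕ) (w : ℝ)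
    (hw : ∀ p : ℕ, p.Prime → p ∉ S → ∀ z : ℂ, (B p).charpoly.IsRoot z → ‖z‖ ≤ (p : ℝ) ^ (w / 2)) :
    ∃ α : ℕ → Fin n → ℂ, (∀ p : ℕ, p.Prime → ∀ i, ‖α p i‖ ≤ 1) ∧
      (∀ p : ℕ, p.Prime → p ∉ S → ∑ i, α p i = (p : ℂ) ^ (-((w / 2 : ℝ) : ℂ)) * (B p).trace) ∧
      ∀ s : ℂ, ∀ p : ℕ, p.Prime → (if p ∈ S then 1 else
        ((1 - ((p : ℂ) ^ (-(s + ((w / 2 : ℝ) : ℂ)))) • B p).det)⁻¹) =
        ∏ i, (1 - α p i * (p : ℂ) ^ (-s))⁻¹ := by
  classical
  have h1 : ∀ p : ℕ, ∃ f : Fin n → ℂ,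
      (B p).charpoly.roots = Multiset.map f Finset.univ.val := by
    intro p
    refine exists_fin _ ?_
    have h2 := (IsAlgClosed.splits (B p).charpoly).natDegree_eq_card_roots
    rw [← h2, Matrix.charpoly_natDegree_eq_dim, Fintype.card_fin]
  choose β hβ using h1
  refine ⟨fun p i => if p ∈ S then 0 else (p : ℂ) ^ (-((w / 2 : ℝ) : ℂ)) * β p i, ?_, ?_, ?_⟩
  · intro p hp i
    simp only
    split_ifs with h
    · simp
    · have h3 : (B p).charpoly.IsRoot (β p i) := by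
        have h4 : β p i ∈ (B p).charpoly.roots := by
          rw [hβ p]
          exact Multiset.mem_map_of_mem _ (Finset.mem_univ_val i)
        exact (Polynomial.mem_roots'.1 h4).2
      have h5 := hw p hp h _ h3
      have hp0 : (0 : ℝ) < p := Nat.cast_pos.2 hp.pos
      rw [norm_mul, Complex.norm_natCast_cpow_of_pos hp.pos, Complex.neg_re, Complex.ofReal_re,
        Real.rpow_neg hp0.le, inv_mul_le_iff₀ (Real.rpow_pos_of_pos hp0 _), mul_one]
      exact h5
  · intro p hp hpS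
    simp only [if_neg hpS]
    rw [← mul_sum, Matrix.trace_eq_sum_roots_charpoly, hβ p]
    rfl
  · intro s p hp
    by_cases hpS : p ∈ S
    · simp [hpS]
    · simp only [if_neg hpS]
      rw [Pool.Agent.TH339.MP.det_one_sub _ _ (hβ p), Finset.prod_inv_distrib]
      congr 1
      refine prod_congr rfl fun i _ => ?_
      have hne : (p : ℂ) ≠ 0 := Nat.cast_ne_zero.2 hp.ne_zero
      rw [neg_add, Complex.cpow_add _ _ hne]
      ring

/-- the angular limit of the Euler product `EL` -/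
lemma EL_angle {J : Type*} {N : J → ℕ} {α : (j : J) → ℕ → Fin (N j) → ℂ}
    (hα : ∀ j, ∀ p : ℕ, p.Prime → ∀ i, ‖α j p i‖ ≤ 1) (j : J) {τ : ℝ}
    (hτ : τ ∉ divSet (ap (bα (α j) ∅))) (C : ℝ) :
    Tendsto (fun z : ℂ => EL α j (z + (1 + (τ : ℂ) * Complex.I)))
      (𝓝[{z : ℂ | 0 < z.re ∧ ‖z‖ ≤ C * z.re}] 0)
      (𝓝 (Complex.exp (bl (bα (α j) ∅) τ))) := by
  have hb := norm_bα (α := α j) (S := ∅) fun p hp _ i => hα j p hp i
  have h5 := bl_angle hb hτ C
  have h7 := (Complex.continuous_exp.tendsto _).comp h5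
  refine h7.congr' ?_
  filter_upwards with z
  unfold EL
  simp only [Function.comp_apply]
  congr 2
  ring

end Pool.Agent.TH345.ET
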